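import Mathlib

/-! # Linear statistics of a finite configuration in a window -/

set_option autoImplicit false

open MeasureTheory Set Filter Topology

namespace Pool.Agent.TH850.NR

variable {ι : Type*}

/-- the linear statistic with the weight `κ` on the scale `1 / w` around `t` -/
noncomputable def Lin (S : Finset ι) (m γ : ι → ℝ) (w : ℝ) (κ : ℝ → ℝ) (t : ℝ) : ℝ :=
  ∑ i ∈ S, m i * κ ((γ i - t) * w)

lemma comp_integrable {κ : ℝ → ℝ} (hκ : Integrable κ) {w : ℝ} (hw : 0 < w) (g : ℝ) :
    Integrable fun t => κ ((g - t) * w) := by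
  have h1 : Integrable fun t : ℝ => κ (t * w) := hκ.comp_mul_right' hw.ne'
  exact h1.comp_sub_left g

lemma comp_integral (κ : ℝ → ℝ) {w : ℝ} (hw : 0 < w) (g : ℝ) :
    ∫ t, κ ((g - t) * w) = (∫ y, κ y) / w := by
  have h1 : ∫ t, κ ((g - t) * w) = ∫ t, κ (t * w) :=
    integral_sub_left_eq_self (fun t => κ (t * w)) volume g
  rw [h1, Measure.integral_comp_mul_right, smul_eq_mul, abs_of_pos (inv_pos.2 hw)]
  rw [inv_mul_eq_div]

lemma Lin_integrable (S : Finset ι) (m γ : ι → ℝ) {w : ℝ} (hw : 0 < w) {κ : ℝ → ℝ}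
    (hκ : Integrable κ) : Integrable (Lin S m γ w κ) := by
  unfold Lin
  exact integrable_finsetSum _ fun i _ => (comp_integrable hκ hw (γ i)).const_mul _

lemma Lin_integral (S : Finset ι) (m γ : ι → ℝ) {w : ℝ} (hw : 0 < w) {κ : ℝ → ℝ}
    (hκ : Integrable κ) : ∫ t, Lin S m γ w κ t = (∑ i ∈ S, m i) * (∫ y, κ y) / w := by
  unfold Lin
  rw [integral_finsetSum _ fun i _ => (comp_integrable hκ hw (γ i)).const_mul _]
  simp_rw [integral_const_mul, comp_integral κ hw]
  rw [← Finset.sum_mul, mul_div_assoc]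

lemma Lin_nonneg (S : Finset ι) {m : ι → ℝ} (hm : ∀ i, 0 ≤ m i) (γ : ι → ℝ) (w : ℝ) {κ : ℝ → ℝ}
    (hκ : ∀ x, 0 ≤ κ x) (t : ℝ) : 0 ≤ Lin S m γ w κ t :=
  Finset.sum_nonneg fun i _ => mul_nonneg (hm i) (hκ _)

/-- the second moment is a pair sum -/
lemma second_moment (S : Finset ι) (m γ : ι → ℝ) {w : ℝ} (hw : 0 < w) {φ : ℝ → ℝ}
    (hint : ∀ x, Integrable fun y => φ y * φ (y + x)) :
    Integrable (fun t => Lin S m γ w φ t ^ 2) ∧
    ∫ t, Lin S m γ w φ t ^ 2 =
      (∑ i ∈ S, ∑ j ∈ S, m i * m j * ∫ y, φ y * φ (y + (γ i - γ j) * w)) / w := by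
  have h0 : ∀ t, Lin S m γ w φ t ^ 2 =
      ∑ i ∈ S, ∑ j ∈ S, m i * m j * (φ ((γ j - t) * w) * φ ((γ i - t) * w)) := by
    intro t
    unfold Lin
    rw [sq, Finset.sum_mul_sum]
    exact Finset.sum_congr rfl fun i _ => Finset.sum_congr rfl fun j _ => by ring
  have h1 : ∀ i j : ι, (fun t => φ ((γ j - t) * w) * φ ((γ i - t) * w)) =
      fun t => (fun y => φ y * φ (y + (γ i - γ j) * w)) ((γ j - t) * w) := by
    intro i j
    funext t
    have : (γ j - t) * w + (γ i - γ j) * w = (γ i - t) * w := by ring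
    simp only [this]
  have h2 : ∀ i j : ι, Integrable fun t => φ ((γ j - t) * w) * φ ((γ i - t) * w) := by
    intro i j
    rw [h1 i j]
    exact comp_integrable (hint _) hw (γ j)
  have h3 : ∀ i j : ι, ∫ t, φ ((γ j - t) * w) * φ ((γ i - t) * w) =
      (∫ y, φ y * φ (y + (γ i - γ j) * w)) / w := by
    intro i j
    rw [h1 i j]
    exact comp_integral (fun y => φ y * φ (y + (γ i - γ j) * w)) hw (γ j)
  simp_rw [h0]
  constructor
  · exact integrable_finsetSum _ fun i _ => integrable_finsetSum _ fun j _ => (h2 i j).const_mul _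
  · rw [integral_finsetSum _ fun i _ => integrable_finsetSum _ fun j _ => (h2 i j).const_mul _,
      Finset.sum_div]
    refine Finset.sum_congr rfl fun i _ => ?_
    rw [integral_finsetSum _ fun j _ => (h2 i j).const_mul _, Finset.sum_div]
    refine Finset.sum_congr rfl fun j _ => ?_
    rw [integral_const_mul, h3, mul_div_assoc]

/-- lower bound for the first moment over the window -/
lemma first_moment (S : Finset ι) {m : ι → ℝ} (hm : ∀ i, 0 ≤ m i) (γ : ι → ℝ) {w : ℝ} (hw : 0 < w)
    {φ : ℝ → ℝ} (hφ : Integrable φ) (hφ0 : ∀ x, 0 ≤ φ x) {u H : ℝ} (hH : 0 ≤ H) (S0 : Finset ι)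
    (hS0 : S0 ⊆ S) (hin : ∀ i ∈ S0, u + 1 ≤ γ i ∧ γ i ≤ u + H - 1) :
    (∑ i ∈ S0, m i) * ((∫ y, φ y) - ∫ y in {y : ℝ | w ≤ |y|}, φ y) / w ≤
      ∫ t in u..(u + H), Lin S m γ w φ t := by
  have h1 : ∀ i ∈ S0, ((∫ y, φ y) - ∫ y in {y : ℝ | w ≤ |y|}, φ y) / w ≤
      ∫ t in u..(u + H), φ ((γ i - t) * w) := by
    intro i hi
    obtain ⟨h2, h3⟩ := hin i hi
    have hI := comp_integrable hφ hw (γ i)
    rw [intervalIntegral.integral_of_le (by linarith)]
    have h4 : ∫ t, φ ((γ i - t) * w) = (∫ t in Ioc u (u + H), φ ((γ i - t) * w)) +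
        ∫ t in (Ioc u (u + H))ᶜ, φ ((γ i - t) * w) :=
      (integral_add_compl measurableSet_Ioc hI).symm
    have h5 : ∫ t in (Ioc u (u + H))ᶜ, φ ((γ i - t) * w) ≤
        (∫ y in {y : ℝ | w ≤ |y|}, φ y) / w := by
      have hms : MeasurableSet {y : ℝ | w ≤ |y|} := measurableSet_le measurable_const
        (continuous_abs.measurable)
      have h6 := comp_integral (Set.indicator {y : ℝ | w ≤ |y|} φ) hw (γ i)
      rw [integral_indicator hms] at h6
      rw [← h6, ← integral_indicator measurableSet_Ioc.compl]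
      refine integral_mono (hI.indicator measurableSet_Ioc.compl)
        (comp_integrable (hφ.indicator hms) hw (γ i)) fun t => ?_
      by_cases ht : t ∈ (Ioc u (u + H))ᶜ
      · rw [indicator_of_mem ht, indicator_of_mem]
        rw [mem_compl_iff, mem_Ioc, not_and_or, not_lt, not_le] at ht
        show w ≤ |(γ i - t) * w|
        rw [abs_mul, abs_of_pos hw]
        have : 1 ≤ |γ i - t| := by
          rcases ht with ht | ht
          · rw [le_abs]; left; linarith
          · rw [le_abs]; right; linarith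
        nlinarith
      · rw [indicator_of_notMem ht]
        exact indicator_nonneg (fun _ _ => hφ0 _) _
    rw [comp_integral φ hw] at h4
    rw [sub_div]
    linarith
  have h7 : ∫ t in u..(u + H), Lin S m γ w φ t =
      ∑ i ∈ S, m i * ∫ t in u..(u + H), φ ((γ i - t) * w) := by
    unfold Lin
    rw [intervalIntegral.integral_finsetSum fun i _ =>
      ((comp_integrable hφ hw (γ i)).const_mul _).intervalIntegrable]
    simp_rw [intervalIntegral.integral_const_mul]
  rw [h7, Finset.sum_mul, Finset.sum_div]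
  calc ∑ i ∈ S0, m i * ((∫ y, φ y) - ∫ y in {y : ℝ | w ≤ |y|}, φ y) / w ≤
      ∑ i ∈ S0, m i * ∫ t in u..(u + H), φ ((γ i - t) * w) := by
        refine Finset.sum_le_sum fun i hi => ?_
        rw [mul_div_assoc]
        exact mul_le_mul_of_nonneg_left (h1 i hi) (hm i)
    _ ≤ _ := by
        refine Finset.sum_le_sum_of_subset_of_nonneg hS0 fun i _ _ => mul_nonneg (hm i) ?_
        exact intervalIntegral.integral_nonneg (by linarith) fun t _ => hφ0 _

/-- Cauchy-Schwarz on an interval -/
lemma cs_interval {f : ℝ → ℝ} {u H : ℝ} (hH : 0 ≤ H) (hf : IntervalIntegrable f volume u (u + H))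
    (hf2 : IntervalIntegrable (fun t => f t ^ 2) volume u (u + H)) {A : ℝ} (hA : 0 < A)
    (h : ∫ t in u..(u + H), f t ^ 2 ≤ A ^ 2 * H) :
    ∫ t in u..(u + H), |f t| ≤ A * H := by
  have h1 : ∫ t in u..(u + H), |f t| ≤ ∫ t in u..(u + H), (f t ^ 2 / (2 * A) + A / 2) := by
    refine intervalIntegral.integral_mono_on (by linarith) hf.abs
      ((hf2.div_const _).add intervalIntegrable_const) fun t _ => ?_
    have h2 : 0 ≤ (|f t| - A) ^ 2 := sq_nonneg _
    have h3 : |f t| ^ 2 = f t ^ 2 := sq_abs _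
    rw [div_add_div _ _ (by positivity) (by norm_num), le_div_iff₀ (by positivity)]
    nlinarith
  rw [intervalIntegral.integral_add (hf2.div_const _) intervalIntegrable_const,
    intervalIntegral.integral_div, intervalIntegral.integral_const, smul_eq_mul] at h1
  have h4 : (∫ t in u..(u + H), f t ^ 2) / (2 * A) ≤ A ^ 2 * H / (2 * A) :=
    div_le_div_of_nonneg_right h (by positivity)
  have h5 : A ^ 2 * H / (2 * A) = A * H / 2 := by field_simp
  linarith

/-- indicator of the window -/
noncomputable def kone (a y : ℝ) : ℝ := if |y| ≤ a then 1 else 0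

/-- the defect inside the window -/
noncomputable def kin (a : ℝ) (φ : ℝ → ℝ) (y : ℝ) : ℝ := if |y| ≤ a then 1 - φ y else 0

/-- the weight outside the window, up to the distance `R` -/
noncomputable def kmid (a R : ℝ) (φ : ℝ → ℝ) (y : ℝ) : ℝ := if a < |y| ∧ |y| ≤ R then φ y else 0

/-- the weight beyond the distance `R` -/
noncomputable def kout (R : ℝ) (φ : ℝ → ℝ) (y : ℝ) : ℝ := if R < |y| then φ y else 0

section

variable {φ : ℝ → ℝ} (hφc : Continuous φ) (hφ : Integrable φ) (hφ0 : ∀ x, 0 ≤ φ x)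
  (hφ1 : ∀ x, φ x ≤ 1) (a R : ℝ)

lemma set_le_meas (a : ℝ) : MeasurableSet {y : ℝ | |y| ≤ a} :=
  measurableSet_le continuous_abs.measurable measurable_const

lemma set_le_eq (a : ℝ) : {y : ℝ | |y| ≤ a} = Icc (-a) a := by
  ext y; simp [abs_le]

lemma kone_eq (a : ℝ) : kone a = Set.indicator {y : ℝ | |y| ≤ a} (fun _ => 1) := by
  funext y
  unfold kone
  by_cases h : |y| ≤ a
  · rw [if_pos h, indicator_of_mem (show y ∈ {y : ℝ | |y| ≤ a} from h)]
  · rw [if_neg h, indicator_of_notMem (show y ∉ {y : ℝ | |y| ≤ a} from h)]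

lemma kone_int (a : ℝ) : Integrable (kone a) := by
  rw [kone_eq, integrable_indicator_iff (set_le_meas a), set_le_eq]
  exact integrableOn_const (by simp)

lemma kone_integral {a : ℝ} (ha : 0 ≤ a) : ∫ y, kone a y = 2 * a := by
  rw [kone_eq, integral_indicator (set_le_meas a), set_le_eq, setIntegral_const]
  simp [ha]
  ring

include hφc in
lemma kin_int : Integrable (kin a φ) := by
  have h : kin a φ = Set.indicator {y : ℝ | |y| ≤ a} (fun y => 1 - φ y) := by
    funext y
    unfold kin
    by_cases h : |y| ≤ a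
    · rw [if_pos h, indicator_of_mem (show y ∈ {y : ℝ | |y| ≤ a} from h)]
    · rw [if_neg h, indicator_of_notMem (show y ∉ {y : ℝ | |y| ≤ a} from h)]
  rw [h, integrable_indicator_iff (set_le_meas a), set_le_eq]
  exact (Continuous.continuousOn (by fun_prop)).integrableOn_Icc

include hφ in
lemma kout_int : Integrable (kout R φ) := by
  have hms : MeasurableSet {y : ℝ | R < |y|} := measurableSet_lt measurable_const
    continuous_abs.measurable
  have h : kout R φ = Set.indicator {y : ℝ | R < |y|} φ := by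
    funext y
    unfold kout
    by_cases h : R < |y|
    · rw [if_pos h, indicator_of_mem (show y ∈ {y : ℝ | R < |y|} from h)]
    · rw [if_neg h, indicator_of_notMem (show y ∉ {y : ℝ | R < |y|} from h)]
  rw [h]
  exact hφ.indicator hms

include hφ in
lemma kmid_int : Integrable (kmid a R φ) := by
  have hms : MeasurableSet {y : ℝ | a < |y| ∧ |y| ≤ R} :=
    (measurableSet_lt measurable_const continuous_abs.measurable).inter
      (measurableSet_le continuous_abs.measurable measurable_const)
  have h : kmid a R φ = Set.indicator {y : ℝ | a < |y| ∧ |y| ≤ R} φ := by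
    funext y
    unfold kmid
    by_cases h : a < |y| ∧ |y| ≤ R
    · rw [if_pos h, indicator_of_mem (show y ∈ {y : ℝ | a < |y| ∧ |y| ≤ R} from h)]
    · rw [if_neg h, indicator_of_notMem (show y ∉ {y : ℝ | a < |y| ∧ |y| ≤ R} from h)]
  rw [h]
  exact hφ.indicator hms

include hφ0 hφ1 in
/-- pointwise comparison of the weights: window + outside statistic against the full statistic -/
lemma weights (y : ℝ) : |kone a y + kmid a R φ y - φ y| ≤ kin a φ y + kout R φ y := by
  have h0 := hφ0 y
  have h1 := hφ1 y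
  unfold kone kmid kin kout
  by_cases h2 : |y| ≤ a
  · rw [if_pos h2, if_neg (by intro h; linarith [h.1]), if_pos h2]
    split_ifs
    · rw [abs_of_nonneg (by linarith)]; linarith
    · rw [abs_of_nonneg (by linarith)]; linarith
  · rw [if_neg h2, if_neg h2]
    push Not at h2
    by_cases h3 : |y| ≤ R
    · rw [if_pos ⟨h2, h3⟩, if_neg (by linarith)]
      simp
    · push Not at h3
      rw [if_neg (by intro h; linarith [h.2]), if_pos h3, abs_of_nonpos (by linarith)]
      linarith

include hφ0 in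
lemma weights2 (y : ℝ) : |kone a y + kmid a R φ y| ≤ kone a y + φ y := by
  have h0 := hφ0 y
  have h1 : 0 ≤ kone a y := by unfold kone; split_ifs <;> norm_num
  have h2 : 0 ≤ kmid a R φ y := by unfold kmid; split_ifs <;> simp [h0]
  have h3 : kmid a R φ y ≤ φ y := by unfold kmid; split_ifs <;> simp [h0]
  rw [abs_of_nonneg (by linarith)]
  linarith

include hφc hφ hφ0 hφ1 in
/-- the main estimate for a finite configuration in a window -/
theorem window (S S' : Finset ι) (hSS : S ⊆ S') [DecidableEq ι] {m : ι → ℝ} (hm : ∀ i, 0 ≤ m i)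
    (γ : ι → ℝ) {w : ℝ} (hw : 0 < w) (ha : 0 ≤ a) {u H : ℝ} (hH : 0 ≤ H) {A : ℝ} (hA : 0 < A)
    (c : ℝ) (hF2 : Integrable fun t => Lin S m γ w φ t ^ 2)
    (hMS : ∫ t in u..(u + H), (Lin S m γ w φ t - c) ^ 2 ≤ A ^ 2 * H) :
    IntervalIntegrable (fun t => Lin S' m γ w (kone a) t - (c - Lin S' m γ w (kmid a R φ) t))
      volume u (u + H) ∧
    ∫ t in u..(u + H), |Lin S' m γ w (kone a) t - (c - Lin S' m γ w (kmid a R φ) t)| ≤
      A * H + (∑ i ∈ S, m i) * ((∫ y, kin a φ y) + ∫ y, kout R φ y) / w +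
        (∑ i ∈ S' \ S, m i) * (2 * a + ∫ y, φ y) / w := by
  have hk1 := kone_int a
  have hk2 := kin_int hφc a
  have hk3 := kout_int hφ R
  have hk4 := kmid_int hφ a R
  have hLF := Lin_integrable S m γ hw hφ
  have hint : ∀ t, |Lin S' m γ w (kone a) t - (c - Lin S' m γ w (kmid a R φ) t)| ≤
      |Lin S m γ w φ t - c| + Lin S m γ w (fun y => kin a φ y + kout R φ y) t +
        Lin (S' \ S) m γ w (fun y => kone a y + φ y) t := by
    intro t
    have e1 : Lin S' m γ w (kone a) t - (c - Lin S' m γ w (kmid a R φ) t) =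
        (Lin S m γ w φ t - c) +
        (∑ i ∈ S, m i * (kone a ((γ i - t) * w) + kmid a R φ ((γ i - t) * w) - φ ((γ i - t) * w))) +
        ∑ i ∈ S' \ S, m i * (kone a ((γ i - t) * w) + kmid a R φ ((γ i - t) * w)) := by
      unfold Lin
      rw [← Finset.sum_sdiff hSS, ← Finset.sum_sdiff hSS]
      simp only [mul_add, mul_sub, Finset.sum_add_distrib, Finset.sum_sub_distrib]
      ring
    rw [e1]
    refine (abs_add_three _ _ _).trans (add_le_add (add_le_add le_rfl ?_) ?_)
    · refine (Finset.abs_sum_le_sum_abs _ _).trans (Finset.sum_le_sum fun i _ => ?_)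
      rw [abs_mul, abs_of_nonneg (hm i)]
      exact mul_le_mul_of_nonneg_left (weights hφ0 hφ1 a R _) (hm i)
    · refine (Finset.abs_sum_le_sum_abs _ _).trans (Finset.sum_le_sum fun i _ => ?_)
      rw [abs_mul, abs_of_nonneg (hm i)]
      exact mul_le_mul_of_nonneg_left (weights2 hφ0 a R _) (hm i)
  have hI0 : IntervalIntegrable
      (fun t => Lin S' m γ w (kone a) t - (c - Lin S' m γ w (kmid a R φ) t)) volume u (u + H) := by
    have h1 := (Lin_integrable S' m γ hw hk1).intervalIntegrable (a := u) (b := u + H)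
    have h2 := (Lin_integrable S' m γ hw hk4).intervalIntegrable (a := u) (b := u + H)
    exact h1.sub (intervalIntegrable_const.sub h2)
  refine ⟨hI0, ?_⟩
  have hI1 : IntervalIntegrable (fun t => Lin S m γ w φ t - c) volume u (u + H) :=
    hLF.intervalIntegrable.sub intervalIntegrable_const
  have hI1' : IntervalIntegrable (fun t => (Lin S m γ w φ t - c) ^ 2) volume u (u + H) := by
    have : (fun t => (Lin S m γ w φ t - c) ^ 2) =
        fun t => Lin S m γ w φ t ^ 2 - 2 * c * Lin S m γ w φ t + c ^ 2 := by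
      funext t; ring
    rw [this]
    exact (hF2.intervalIntegrable.sub (hLF.intervalIntegrable.const_mul _)).add
      intervalIntegrable_const
  have hk23 : Integrable (fun y => kin a φ y + kout R φ y) := hk2.add hk3
  have hk1φ : Integrable (fun y => kone a y + φ y) := hk1.add hφ
  have hL2 := Lin_integrable S m γ hw hk23
  have hL3 := Lin_integrable (S' \ S) m γ hw hk1φ
  have hcs := cs_interval hH hI1 hI1' hA hMS
  have hn2 : ∀ t, 0 ≤ Lin S m γ w (fun y => kin a φ y + kout R φ y) t := by
    intro t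
    refine Lin_nonneg S hm γ w (fun y => ?_) t
    have h0 := hφ0 y
    have h1 := hφ1 y
    unfold kin kout
    split_ifs <;> linarith
  have hn3 : ∀ t, 0 ≤ Lin (S' \ S) m γ w (fun y => kone a y + φ y) t := by
    intro t
    refine Lin_nonneg _ hm γ w (fun y => ?_) t
    have h0 := hφ0 y
    unfold kone
    split_ifs <;> linarith
  have hle : u ≤ u + H := by linarith
  have e2 : ∫ t in u..(u + H), Lin S m γ w (fun y => kin a φ y + kout R φ y) t ≤
      (∑ i ∈ S, m i) * ((∫ y, kin a φ y) + ∫ y, kout R φ y) / w := by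
    rw [← integral_add hk2 hk3, ← Lin_integral S m γ hw hk23,
      intervalIntegral.integral_of_le hle]
    exact setIntegral_le_integral hL2 (Eventually.of_forall hn2)
  have e3 : ∫ t in u..(u + H), Lin (S' \ S) m γ w (fun y => kone a y + φ y) t ≤
      (∑ i ∈ S' \ S, m i) * (2 * a + ∫ y, φ y) / w := by
    rw [← kone_integral ha, ← integral_add hk1 hφ, ← Lin_integral (S' \ S) m γ hw hk1φ,
      intervalIntegral.integral_of_le hle]
    exact setIntegral_le_integral hL3 (Eventually.of_forall hn3)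
  calc ∫ t in u..(u + H), |Lin S' m γ w (kone a) t - (c - Lin S' m γ w (kmid a R φ) t)| ≤
      ∫ t in u..(u + H), (|Lin S m γ w φ t - c| +
        Lin S m γ w (fun y => kin a φ y + kout R φ y) t +
        Lin (S' \ S) m γ w (fun y => kone a y + φ y) t) :=
        intervalIntegral.integral_mono_on hle hI0.abs
          ((hI1.abs.add hL2.intervalIntegrable).add hL3.intervalIntegrable) fun t _ => hint t
    _ = (∫ t in u..(u + H), |Lin S m γ w φ t - c|) +
        (∫ t in u..(u + H), Lin S m γ w (fun y => kin a φ y + kout R φ y) t) +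
        ∫ t in u..(u + H), Lin (S' \ S) m γ w (fun y => kone a y + φ y) t := by
        rw [intervalIntegral.integral_add (hI1.abs.add hL2.intervalIntegrable)
          hL3.intervalIntegrable, intervalIntegral.integral_add hI1.abs hL2.intervalIntegrable]
    _ ≤ _ := by linarith

end

end Pool.Agent.TH850.NR
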