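import Pool.Agent.TH850.NR.Four
import Pool.Agent.H345R2.A2.Four

/-! # The autocorrelation of the averages of Fejer kernels -/

set_option autoImplicit false

open MeasureTheory Set Filter Topology

namespace Pool.Agent.TH850.NR

open H370.A2 (RR)

lemma RR_tri (J : ℕ) : RR (tri J) (1 / 2) = phi J := by
  funext x
  exact trans J x

lemma phi_bound (J : ℕ) (hJ : 1 ≤ J) (x : ℝ) : |RR (tri J) (1 / 2) x| * x ^ 2 ≤ 4 ^ J / (7 * J) := by
  rw [RR_tri, abs_of_nonneg (phi_nonneg J x)]
  exact phi_decay J hJ x

/-- inversion -/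
lemma inv (J : ℕ) (hJ : 1 ≤ J) (β : ℝ) :
    ∫ x, phi J x * Real.cos (2 * Real.pi * x * β) = tri J β := by
  have h := H370.A2.RR_inv (tri_cont J) (tri_supp J) (phi_bound J hJ) β
  rw [RR_tri] at h
  rw [h]
  unfold H370.A2.evp
  rw [tri_even]
  ring

lemma inv_sin (J : ℕ) (β : ℝ) : ∫ x, phi J x * Real.sin (2 * Real.pi * x * β) = 0 := by
  have h := integral_neg_eq_self (fun x : ℝ => phi J x * Real.sin (2 * Real.pi * x * β)) volume
  have h2 : ∀ x : ℝ, phi J (-x) * Real.sin (2 * Real.pi * -x * β) =
      -(phi J x * Real.sin (2 * Real.pi * x * β)) := by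
    intro x
    rw [phi_even, show 2 * Real.pi * -x * β = -(2 * Real.pi * x * β) by ring, Real.sin_neg]
    ring
  simp_rw [h2] at h
  rw [integral_neg] at h
  linarith

lemma integral_phi (J : ℕ) (hJ : 1 ≤ J) : ∫ x, phi J x = cc J := by
  have h := inv J hJ 0
  simpa [tri_zero] using h

/-- the autocorrelation -/
noncomputable def au (J : ℕ) (x : ℝ) : ℝ := ∫ y, phi J y * phi J (y + x)

lemma phi_sup (J : ℕ) (hJ : 1 ≤ J) (x y : ℝ) : |phi J y * phi J (y + x)| ≤ phi J y := by
  rw [abs_of_nonneg (mul_nonneg (phi_nonneg _ _) (phi_nonneg _ _))]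
  have := phi_le_one J hJ (y + x)
  have h2 := phi_nonneg J y
  nlinarith

lemma au_int (J : ℕ) (hJ : 1 ≤ J) (x : ℝ) : Integrable fun y => phi J y * phi J (y + x) := by
  refine (phi_integrable J hJ).mono' ?_ (Eventually.of_forall fun y => ?_)
  · have := phi_cont J
    exact Continuous.aestronglyMeasurable (by fun_prop)
  · exact phi_sup J hJ x y

/-- the Fourier transform of the autocorrelation is the square -/
lemma RR_sq (J : ℕ) (hJ : 1 ≤ J) (x : ℝ) : RR (fun α => tri J α ^ 2) (1 / 2) x = au J x := by
  have hpc := phi_cont J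
  have htc := tri_cont J
  unfold au
  have h1 : ∀ y : ℝ, phi J y * phi J (y + x) =
      ∫ α in (-(1 / 2 : ℝ))..(1 / 2), phi J y * (tri J α * Real.cos (2 * Real.pi * α * (y + x))) := by
    intro y
    rw [intervalIntegral.integral_const_mul, trans]
  simp_rw [h1]
  rw [← intervalIntegral_integral_swap
    (f := fun α y => phi J y * (tri J α * Real.cos (2 * Real.pi * α * (y + x))))]
  · unfold RR
    refine intervalIntegral.integral_congr fun α _ => ?_
    show tri J α ^ 2 * Real.cos (2 * Real.pi * α * x) = _
    have h2 : ∀ y : ℝ, phi J y * (tri J α * Real.cos (2 * Real.pi * α * (y + x))) =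
        (tri J α * Real.cos (2 * Real.pi * α * x)) * (phi J y * Real.cos (2 * Real.pi * y * α)) -
        (tri J α * Real.sin (2 * Real.pi * α * x)) * (phi J y * Real.sin (2 * Real.pi * y * α)) := by
      intro y
      rw [show 2 * Real.pi * α * (y + x) = 2 * Real.pi * y * α + 2 * Real.pi * α * x by ring,
        Real.cos_add]
      ring
    simp_rw [h2]
    rw [integral_sub, integral_const_mul, integral_const_mul, inv J hJ, inv_sin]
    · ring
    · refine Integrable.const_mul ?_ _
      refine (phi_integrable J hJ).mono' (Continuous.aestronglyMeasurable (by fun_prop))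
        (Eventually.of_forall fun y => ?_)
      rw [Real.norm_eq_abs, abs_mul, abs_of_nonneg (phi_nonneg J y)]
      have := Real.abs_cos_le_one (2 * Real.pi * y * α)
      have := phi_nonneg J y
      nlinarith
    · refine Integrable.const_mul ?_ _
      refine (phi_integrable J hJ).mono' (Continuous.aestronglyMeasurable (by fun_prop))
        (Eventually.of_forall fun y => ?_)
      rw [Real.norm_eq_abs, abs_mul, abs_of_nonneg (phi_nonneg J y)]
      have := Real.abs_sin_le_one (2 * Real.pi * y * α)
      have := phi_nonneg J y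
      nlinarith
  · have hI : Integrable (fun z : ℝ × ℝ => cc J * phi J z.2)
        ((volume.restrict (Set.uIoc (-(1 / 2 : ℝ)) (1 / 2))).prod volume) := by
      have : IsFiniteMeasure (volume.restrict (Set.uIoc (-(1 / 2 : ℝ)) (1 / 2))) := by
        rw [Set.uIoc_of_le (by norm_num)]
        infer_instance
      have := Integrable.mul_prod (μ := volume.restrict (Set.uIoc (-(1 / 2 : ℝ)) (1 / 2)))
        (ν := volume) (integrable_const (cc J)) (phi_integrable J hJ)
      exact this
    refine hI.mono' ?_ (Eventually.of_forall fun z => ?_)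
    · apply Continuous.aestronglyMeasurable
      simp only [Function.uncurry_def]
      fun_prop
    · simp only [Function.uncurry]
      rw [Real.norm_eq_abs, abs_mul, abs_mul, abs_of_nonneg (phi_nonneg J _),
        abs_of_nonneg (tri_nonneg J _)]
      have h5 := Real.abs_cos_le_one (2 * Real.pi * z.1 * (z.2 + x))
      have h6 := phi_nonneg J z.2
      have h7 := tri_le J z.1
      have h8 := tri_nonneg J z.1
      have h9 := abs_nonneg (Real.cos (2 * Real.pi * z.1 * (z.2 + x)))
      calc phi J z.2 * (tri J z.1 * |Real.cos (2 * Real.pi * z.1 * (z.2 + x))|) ≤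
          phi J z.2 * (tri J z.1 * 1) := by gcongr
        _ ≤ phi J z.2 * (cc J * 1) := by gcongr
        _ = _ := by ring

/-- decay of the autocorrelation -/
lemma au_decay (J : ℕ) (hJ : 1 ≤ J) (x : ℝ) :
    |RR (fun α => tri J α ^ 2) (1 / 2) x| * x ^ 2 ≤ 8 * (4 ^ J / (7 * J)) * cc J := by
  have hpc := phi_cont J
  rw [RR_sq J hJ]
  unfold au
  have h0 : 0 ≤ ∫ y, phi J y * phi J (y + x) :=
    integral_nonneg fun y => mul_nonneg (phi_nonneg _ _) (phi_nonneg _ _)
  rw [abs_of_nonneg h0, ← integral_mul_const]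
  set C := (4 : ℝ) ^ J / (7 * J) with hC
  have hC0 : 0 ≤ C := by rw [hC]; positivity
  have hshift : Integrable fun y => phi J (y + x) := (phi_integrable J hJ).comp_add_right x
  calc ∫ y, phi J y * phi J (y + x) * x ^ 2 ≤ ∫ y, (4 * C * phi J y + 4 * C * phi J (y + x)) := by
        refine integral_mono ((au_int J hJ x).mul_const _)
          (((phi_integrable J hJ).const_mul _).add (hshift.const_mul _)) fun y => ?_
        show phi J y * phi J (y + x) * x ^ 2 ≤ 4 * C * phi J y + 4 * C * phi J (y + x)
        have h1 := phi_decay J hJ y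
        have h2 := phi_decay J hJ (y + x)
        have h3 := phi_nonneg J y
        have h4 := phi_nonneg J (y + x)
        have h5 : x ^ 2 ≤ 2 * y ^ 2 + 2 * (y + x) ^ 2 := by nlinarith [sq_nonneg (2 * y + x)]
        have h6 : phi J y * phi J (y + x) * x ^ 2 ≤
            phi J y * phi J (y + x) * (2 * y ^ 2 + 2 * (y + x) ^ 2) :=
          mul_le_mul_of_nonneg_left h5 (mul_nonneg h3 h4)
        have h7 : phi J y * phi J (y + x) * (2 * y ^ 2 + 2 * (y + x) ^ 2) =
            2 * (phi J (y + x) * (phi J y * y ^ 2)) + 2 * (phi J y * (phi J (y + x) * (y + x) ^ 2)) := by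
          ring
        have h8 : phi J (y + x) * (phi J y * y ^ 2) ≤ phi J (y + x) * C :=
          mul_le_mul_of_nonneg_left h1 h4
        have h9 : phi J y * (phi J (y + x) * (y + x) ^ 2) ≤ phi J y * C :=
          mul_le_mul_of_nonneg_left h2 h3
        nlinarith [mul_nonneg hC0 h3, mul_nonneg hC0 h4]
    _ = 8 * C * cc J := by
        rw [integral_add ((phi_integrable J hJ).const_mul _) (hshift.const_mul _),
          integral_const_mul, integral_const_mul, integral_add_right_eq_self (phi J) x,
          integral_phi J hJ]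
        ring

lemma int_tri (J : ℕ) (hJ : 1 ≤ J) : ∫ α in (-(1 / 2 : ℝ))..(1 / 2), tri J α = 1 := by
  have h := trans J 0
  rw [phi_zero J hJ] at h
  simpa using h

/-- the variance is at most `2 / J` -/
lemma variance (J : ℕ) (hJ : 1 ≤ J) :
    ∫ α in (-(1 / 2 : ℝ))..(1 / 2), |α| * tri J α ^ 2 ≤ 2 / J := by
  have htc := tri_cont J
  calc ∫ α in (-(1 / 2 : ℝ))..(1 / 2), |α| * tri J α ^ 2 ≤
      ∫ α in (-(1 / 2 : ℝ))..(1 / 2), 2 / J * tri J α := by
        refine intervalIntegral.integral_mono_on (by norm_num)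
          (Continuous.intervalIntegrable (by fun_prop) _ _)
          (Continuous.intervalIntegrable (by fun_prop) _ _) fun α _ => ?_
        have h1 := abs_mul_tri J α
        have h2 := tri_nonneg J α
        nlinarith
    _ = 2 / J := by rw [intervalIntegral.integral_const_mul, int_tri J hJ, mul_one]

end Pool.Agent.TH850.NR
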