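import Pool.Agent.TH850.NR.Phi
import Pool.Agent.TH850.NR.Window

/-! # Numerical bounds for the weights -/

set_option autoImplicit false

open MeasureTheory Set Filter Topology

namespace Pool.Agent.TH850.NR

/-- the defect inside the window -/
lemma kin_bound (J : ℕ) (hJ : 1 ≤ J) {a : ℝ} (ha : 0 ≤ a) :
    ∫ y, kin a (phi J) y ≤ 3 / 4 * a ^ 3 / J := by
  have hJ' : (0 : ℝ) < J := by exact_mod_cast hJ
  have h0 : kin a (phi J) = Set.indicator (Icc (-a) a) (fun y => 1 - phi J y) := by
    funext y
    unfold kin
    by_cases h : |y| ≤ a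
    · rw [if_pos h, indicator_of_mem (show y ∈ Icc (-a) a from abs_le.1 h)]
    · have h' : y ∉ Icc (-a) a := fun h' => h (abs_le.2 h')
      rw [if_neg h, indicator_of_notMem h']
  have hpc := phi_cont J
  have hle : -a ≤ a := by linarith
  rw [h0, integral_indicator measurableSet_Icc, integral_Icc_eq_integral_Ioc,
    ← intervalIntegral.integral_of_le hle]
  calc ∫ y in (-a)..a, (1 - phi J y) ≤ ∫ y in (-a)..a, Real.pi ^ 2 / (9 * J) * y ^ 2 := by
        refine intervalIntegral.integral_mono_on hle
          (Continuous.intervalIntegrable (by fun_prop) _ _)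
          (Continuous.intervalIntegrable (by fun_prop) _ _) fun y _ => ?_
        have := one_sub_phi J hJ y
        rw [mul_div_right_comm] at this
        exact this
    _ = Real.pi ^ 2 / (9 * J) * (2 * a ^ 3 / 3) := by
        rw [intervalIntegral.integral_const_mul, integral_pow]
        congr 1
        push_cast
        ring
    _ ≤ 3 / 4 * a ^ 3 / J := by
        have h1 : Real.pi ^ 2 ≤ 10 := by nlinarith [Real.pi_lt_d2, Real.pi_pos]
        have h2 : 0 ≤ a ^ 3 := by positivity
        rw [div_mul_div_comm, div_le_div_iff₀ (by positivity) hJ']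
        have h3 : Real.pi ^ 2 * a ^ 3 ≤ 10 * a ^ 3 := mul_le_mul_of_nonneg_right h1 h2
        nlinarith [mul_nonneg h2 hJ'.le, mul_le_mul_of_nonneg_right h3 hJ'.le]

/-- the weight beyond the distance `R` -/
lemma kout_bound (J : ℕ) (hJ : 1 ≤ J) {R : ℝ} (hR : 0 < R) :
    ∫ y, kout R (phi J) y ≤ 2 * (4 ^ J / (7 * J)) / R := by
  have hJ' : (0 : ℝ) < J := by exact_mod_cast hJ
  set C := (4 : ℝ) ^ J / (7 * J) with hC
  have hC0 : 0 < C := by rw [hC]; positivity
  set g : ℝ → ℝ := Set.indicator (Ioi R) (fun y => C * y ^ (-2 : ℝ)) with hg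
  have h1 : ∀ y ∈ Ioi (0 : ℝ), kout R (phi J) y ≤ g y := by
    intro y hy
    have hy0 : 0 < y := hy
    unfold kout
    rw [hg, abs_of_pos hy0]
    by_cases h : R < y
    · rw [if_pos h, indicator_of_mem (mem_Ioi.2 h)]
      have h2 := phi_decay J hJ y
      rw [Real.rpow_neg hy0.le, Real.rpow_ofNat, ← div_eq_mul_inv, le_div_iff₀ (by positivity)]
      exact h2
    · rw [if_neg h, indicator_of_notMem (by simpa using h)]
  have hgI : IntegrableOn g (Ioi 0) := by
    rw [hg]
    have : IntegrableOn (fun y : ℝ => C * y ^ (-2 : ℝ)) (Ioi R) :=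
      (integrableOn_Ioi_rpow_of_lt (by norm_num) hR).const_mul C
    exact (this.integrable_indicator measurableSet_Ioi).integrableOn
  have hev : ∀ y, kout R (phi J) y = kout R (phi J) |y| := by
    intro y
    rcases abs_choice y with h | h
    · rw [h]
    · rw [h]
      unfold kout
      rw [abs_neg, phi_even]
  calc ∫ y, kout R (phi J) y = ∫ y, kout R (phi J) |y| := by
        congr 1
        funext y
        exact hev y
    _ = 2 * ∫ y in Ioi (0 : ℝ), kout R (phi J) y := integral_comp_abs
    _ ≤ 2 * ∫ y in Ioi (0 : ℝ), g y := by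
        refine mul_le_mul_of_nonneg_left ?_ (by norm_num)
        exact setIntegral_mono_on (kout_int (phi_integrable J hJ) R).integrableOn hgI
          measurableSet_Ioi h1
    _ = 2 * ∫ y in Ioi R, C * y ^ (-2 : ℝ) := by
        rw [hg, setIntegral_indicator measurableSet_Ioi, Ioi_inter_Ioi, max_eq_right hR.le]
    _ = 2 * C / R := by
        rw [integral_const_mul, integral_Ioi_rpow_of_lt (by norm_num) hR]
        norm_num
        rw [Real.rpow_neg_one]
        field_simp

lemma tail_bound (J : ℕ) (hJ : 1 ≤ J) {w : ℝ} (hw : 0 < w) :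
    ∫ y in {y : ℝ | w ≤ |y|}, phi J y ≤ 4 * (4 ^ J / (7 * J)) / w := by
  have hms : MeasurableSet {y : ℝ | w ≤ |y|} := measurableSet_le measurable_const
        (continuous_abs.measurable)
  rw [← integral_indicator hms]
  calc ∫ y, Set.indicator {y : ℝ | w ≤ |y|} (phi J) y ≤ ∫ y, kout (w / 2) (phi J) y := by
        refine integral_mono ((phi_integrable J hJ).indicator hms)
          (kout_int (phi_integrable J hJ) _) fun y => ?_
        by_cases h : w ≤ |y|
        · rw [indicator_of_mem (show y ∈ {y : ℝ | w ≤ |y|} from h)]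
          unfold kout
          rw [if_pos (by linarith)]
        · rw [indicator_of_notMem (show y ∉ {y : ℝ | w ≤ |y|} from h)]
          unfold kout
          split_ifs
          · exact phi_nonneg _ _
          · exact le_rfl
    _ ≤ _ := kout_bound J hJ (by positivity)
    _ = 4 * (4 ^ J / (7 * J)) / w := by
        field_simp
        ring

end Pool.Agent.TH850.NR
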