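import Pool.Agent.TH850.NR.Auto
import Pool.Agent.TH850.NR.Num

/-! # The estimate for a finite configuration whose pair sum is known -/

set_option autoImplicit false

open MeasureTheory Set Filter Topology

namespace Pool.Agent.TH850.NR

/-- the constant in the choice of `ε` -/
noncomputable def dd (J : ℕ) : ℝ := 1 + 2 * cc J + 4 * cc J ^ 2

/-- the accuracy needed in the inputs -/
noncomputable def ee (J : ℕ) : ℝ := 1 / (49 * J ^ 2 * dd J)

lemma dd_one_le (J : ℕ) : 1 ≤ dd J := by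
  unfold dd
  have := cc_nonneg J
  nlinarith [sq_nonneg (cc J)]

lemma ee_pos (J : ℕ) (hJ : 1 ≤ J) : 0 < ee J := by
  have hJ' : (0 : ℝ) < J := by exact_mod_cast hJ
  have := dd_one_le J
  unfold ee
  positivity

lemma ee_dd (J : ℕ) (hJ : 1 ≤ J) : ee J * dd J = (1 / (7 * J)) ^ 2 := by
  have hJ' : (0 : ℝ) < J := by exact_mod_cast hJ
  have := dd_one_le J
  unfold ee
  field_simp
  norm_num

lemma ee_le (J : ℕ) (hJ : 1 ≤ J) : ee J ≤ 1 / (7 * J) * (1 / 7) := by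
  have hJ' : (1 : ℝ) ≤ J := by exact_mod_cast hJ
  have h1 := dd_one_le J
  unfold ee
  rw [div_mul_div_comm, div_le_div_iff₀ (by positivity) (by positivity)]
  have h2 : (J : ℝ) ≤ J ^ 2 := by nlinarith
  have h3 : (J : ℝ) ^ 2 ≤ J ^ 2 * dd J := le_mul_of_one_le_right (by positivity) h1
  nlinarith

lemma cc_two_le (J : ℕ) (hJ : 1 ≤ J) : 2 ≤ cc J := by
  have hJ' : (0 : ℝ) < J := by exact_mod_cast hJ
  unfold cc
  rw [le_div_iff₀ hJ', ← sum_two]
  calc 2 * (J : ℝ) = ∑ _j ∈ Finset.Icc 1 J, (2 : ℝ) := by simp; ring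
    _ ≤ _ := by
      refine Finset.sum_le_sum fun j hj => ?_
      rw [Finset.mem_Icc] at hj
      calc (2 : ℝ) = 2 ^ 1 := by norm_num
        _ ≤ 2 ^ j := pow_le_pow_right₀ (by norm_num) hj.1

theorem core {ι : Type*} [DecidableEq ι] (J : ℕ) (hJ : 1 ≤ J) (a : ℝ) (ha : 0 ≤ a) (B : ℝ)
    (hB : 0 ≤ B) : ∃ w0 : ℝ, 0 < w0 ∧ ∃ H0 : ℝ, 0 < H0 ∧
    ∀ (S0 S S' : Finset ι) (m γ : ι → ℝ) (w u H : ℝ), S0 ⊆ S → S ⊆ S' → (∀ i, 0 ≤ m i) →
      w0 ≤ w → H0 ≤ H → (∀ i ∈ S0, u + 1 ≤ γ i ∧ γ i ≤ u + H - 1) →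
      ∑ i ∈ S, m i ≤ (1 + ee J) * (H * w) → (1 - ee J) * (H * w) - B * w ≤ ∑ i ∈ S0, m i →
      ∑ i ∈ S' \ S, m i ≤ B * w →
      ∑ i ∈ S, ∑ j ∈ S, m i * m j * au J ((γ i - γ j) * w) ≤
        (H * w) * (cc J ^ 2 + 2 / J + ee J) →
      IntervalIntegrable (fun t => Lin S' m γ w (kone a) t -
        (cc J - Lin S' m γ w (kmid a (4 ^ J) (phi J)) t)) volume u (u + H) ∧
      ∫ t in u..(u + H), |Lin S' m γ w (kone a) t -
        (cc J - Lin S' m γ w (kmid a (4 ^ J) (phi J)) t)| ≤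
        (Real.sqrt (2 / J) + (a ^ 3 + 1) / J) * H := by
  have hJ' : (0 : ℝ) < J := by exact_mod_cast hJ
  have hJ1 : (1 : ℝ) ≤ J := by exact_mod_cast hJ
  have hc0 := cc_nonneg J
  have hc2 := cc_two_le J hJ
  have he0 := ee_pos J hJ
  have he1 := ee_le J hJ
  have hd1 := dd_one_le J
  set c := cc J with hcdef
  set ε := ee J with hεdef
  have hJinv : 1 / (7 * (J : ℝ)) ≤ 1 / 7 := by
    apply one_div_le_one_div_of_le (by norm_num)
    linarith
  have hε3 : ε ≤ 1 / 49 := by nlinarith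
  set C := (4 : ℝ) ^ J / (7 * J) with hCdef
  have hC0 : 0 < C := by rw [hCdef]; positivity
  refine ⟨4 * C / ε, by positivity, (B * (2 * a + c) + B + 1) / ε, by positivity, ?_⟩
  intro S0 S S' m γ w u H hS0 hSS hm hw hH hin hN hN0 hN' hPP
  have hw0 : 0 < w := lt_of_lt_of_le (by positivity) hw
  have hH0 : 0 < H := lt_of_lt_of_le (by positivity) hH
  have hBH : B * (2 * a + c) + B + 1 ≤ ε * H := by
    rw [div_le_iff₀ he0] at hH
    linarith
  have hBac : 0 ≤ B * (2 * a + c) := by positivity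
  have hτ : 4 * C / w ≤ ε := by
    rw [div_le_iff₀ he0] at hw
    rw [div_le_iff₀ hw0]
    linarith
  obtain ⟨hF2, hM2⟩ := second_moment S m γ hw0 (au_int J hJ)
  have hM2' : ∫ t, Lin S m γ w (phi J) t ^ 2 ≤ H * (c ^ 2 + 2 / J + ε) := by
    rw [hM2, div_le_iff₀ hw0]
    refine le_trans (le_of_eq ?_) (hPP.trans_eq (by ring))
    rfl
  have hLF := Lin_integrable S m γ hw0 (phi_integrable J hJ)
  have hM1 := first_moment S hm γ hw0 (phi_integrable J hJ) (phi_nonneg J) hH0.le S0 hS0 hin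
  have htail := tail_bound J hJ hw0
  rw [← hCdef] at htail
  have hM1' : (1 - 2 * ε) * (c - ε) * H ≤ ∫ t in u..(u + H), Lin S m γ w (phi J) t := by
    refine le_trans ?_ hM1
    rw [integral_phi J hJ, le_div_iff₀ hw0]
    have h1 : (1 - 2 * ε) * (H * w) ≤ ∑ i ∈ S0, m i := by
      have : B * w ≤ ε * (H * w) := by nlinarith
      nlinarith
    have h2 : c - ε ≤ c - ∫ y in {y : ℝ | w ≤ |y|}, phi J y := by linarith
    calc (1 - 2 * ε) * (c - ε) * H * w = ((1 - 2 * ε) * (H * w)) * (c - ε) := by ring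
      _ ≤ (∑ i ∈ S0, m i) * (c - ε) := mul_le_mul_of_nonneg_right h1 (by linarith)
      _ ≤ _ := mul_le_mul_of_nonneg_left h2 (Finset.sum_nonneg fun i _ => hm i)
  set A := Real.sqrt (2 / J) + 1 / (7 * J) with hAdef
  have hA0 : 0 < A := by
    have := Real.sqrt_nonneg (2 / (J : ℝ))
    have : 0 < 1 / (7 * (J : ℝ)) := by positivity
    linarith
  have hA2 : 2 / J + ε * dd J ≤ A ^ 2 := by
    rw [hAdef, hεdef, ee_dd J hJ, add_sq, Real.sq_sqrt (by positivity)]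
    have := Real.sqrt_nonneg (2 / (J : ℝ))
    have : 0 ≤ 2 * Real.sqrt (2 / J) * (1 / (7 * J)) := by positivity
    linarith
  have hle : u ≤ u + H := by linarith
  have hMS : ∫ t in u..(u + H), (Lin S m γ w (phi J) t - c) ^ 2 ≤ A ^ 2 * H := by
    have e1 : ∀ t, (Lin S m γ w (phi J) t - c) ^ 2 =
        (Lin S m γ w (phi J) t ^ 2 - 2 * c * Lin S m γ w (phi J) t) + c ^ 2 := by
      intro t; ring
    simp_rw [e1]
    rw [intervalIntegral.integral_add
      (hF2.intervalIntegrable.sub (hLF.intervalIntegrable.const_mul _)) intervalIntegrable_const,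
      intervalIntegral.integral_sub hF2.intervalIntegrable (hLF.intervalIntegrable.const_mul _),
      intervalIntegral.integral_const_mul, intervalIntegral.integral_const, smul_eq_mul]
    have e2 : ∫ t in u..(u + H), Lin S m γ w (phi J) t ^ 2 ≤ H * (c ^ 2 + 2 / J + ε) := by
      refine le_trans ?_ hM2'
      rw [intervalIntegral.integral_of_le hle]
      exact setIntegral_le_integral hF2 (Eventually.of_forall fun t => sq_nonneg _)
    have e3 : 2 * c * ((1 - 2 * ε) * (c - ε) * H) ≤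
        2 * c * ∫ t in u..(u + H), Lin S m γ w (phi J) t :=
      mul_le_mul_of_nonneg_left hM1' (by linarith)
    have e4 : H * (c ^ 2 + 2 / J + ε) - 2 * c * ((1 - 2 * ε) * (c - ε) * H) + H * c ^ 2 ≤
        (2 / J + ε * dd J) * H := by
      have : H * (c ^ 2 + 2 / J + ε) - 2 * c * ((1 - 2 * ε) * (c - ε) * H) + H * c ^ 2 =
          (2 / J + ε * (1 + 2 * c + 4 * c ^ 2)) * H - 4 * c * ε ^ 2 * H := by ring
      rw [this]
      have h1 : 0 ≤ 4 * c * ε ^ 2 * H := by positivity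
      have h2 : dd J = 1 + 2 * c + 4 * c ^ 2 := rfl
      rw [h2]
      linarith
    have e5 : (2 / J + ε * dd J) * H ≤ A ^ 2 * H := mul_le_mul_of_nonneg_right hA2 hH0.le
    have e6 : u + H - u = H := by ring
    rw [e6]
    linarith
  obtain ⟨r1, r2⟩ := window (phi_cont J) (phi_integrable J hJ) (phi_nonneg J) (phi_le_one J hJ)
    a (4 ^ J) S S' hSS hm γ hw0 ha hH0.le hA0 c hF2 hMS
  refine ⟨r1, r2.trans ?_⟩
  have hk1 := kin_bound J hJ ha
  have hk2 := kout_bound J hJ (R := 4 ^ J) (by positivity)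
  have hk3 : 2 * ((4 : ℝ) ^ J / (7 * J)) / 4 ^ J = 2 / 7 / J := by field_simp
  rw [hk3] at hk2
  rw [integral_phi J hJ]
  have ha3 : 0 ≤ a ^ 3 := by positivity
  have q1 : (∑ i ∈ S, m i) * ((∫ y, kin a (phi J) y) + ∫ y, kout (4 ^ J) (phi J) y) / w ≤
      (1 + ε) * H * (3 / 4 * a ^ 3 / J + 2 / 7 / J) := by
    rw [div_le_iff₀ hw0]
    calc (∑ i ∈ S, m i) * ((∫ y, kin a (phi J) y) + ∫ y, kout (4 ^ J) (phi J) y) ≤
        (∑ i ∈ S, m i) * (3 / 4 * a ^ 3 / J + 2 / 7 / J) :=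
          mul_le_mul_of_nonneg_left (by linarith) (Finset.sum_nonneg fun i _ => hm i)
      _ ≤ ((1 + ε) * (H * w)) * (3 / 4 * a ^ 3 / J + 2 / 7 / J) :=
          mul_le_mul_of_nonneg_right hN (by positivity)
      _ = _ := by ring
  have q2 : (∑ i ∈ S' \ S, m i) * (2 * a + c) / w ≤ ε * H := by
    rw [div_le_iff₀ hw0]
    calc (∑ i ∈ S' \ S, m i) * (2 * a + c) ≤ (B * w) * (2 * a + c) :=
          mul_le_mul_of_nonneg_right hN' (by positivity)
      _ = (B * (2 * a + c)) * w := by ring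
      _ ≤ (ε * H) * w := mul_le_mul_of_nonneg_right (by linarith) hw0.le
  have q3 : (1 + ε) * H * (3 / 4 * a ^ 3 / J + 2 / 7 / J) ≤
      (a ^ 3 + 8 / 21) / J * H := by
    have h1 : (1 + ε) * (3 / 4 * a ^ 3 / J + 2 / 7 / J) ≤ (a ^ 3 + 8 / 21) / J := by
      rw [← add_div, mul_div_assoc', div_le_div_iff_of_pos_right hJ']
      have h0 : 0 ≤ 3 / 4 * a ^ 3 + 2 / 7 := by linarith
      calc (1 + ε) * (3 / 4 * a ^ 3 + 2 / 7) ≤ (4 / 3) * (3 / 4 * a ^ 3 + 2 / 7) :=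
            mul_le_mul_of_nonneg_right (by linarith) h0
        _ = a ^ 3 + 8 / 21 := by ring
    calc (1 + ε) * H * (3 / 4 * a ^ 3 / J + 2 / 7 / J) =
        ((1 + ε) * (3 / 4 * a ^ 3 / J + 2 / 7 / J)) * H := by ring
      _ ≤ _ := mul_le_mul_of_nonneg_right h1 hH0.le
  have q4 : ε * H ≤ 1 / (7 * J) * H := by
    apply mul_le_mul_of_nonneg_right _ hH0.le
    have : 0 ≤ 1 / (7 * (J : ℝ)) := by positivity
    linarith
  have q5 : A * H + (a ^ 3 + 8 / 21) / J * H + 1 / (7 * J) * H ≤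
      (Real.sqrt (2 / J) + (a ^ 3 + 1) / J) * H := by
    have h1 : 1 / (7 * (J : ℝ)) = (1 / 7) / J := by field_simp
    have h2 : A + (a ^ 3 + 8 / 21) / J + 1 / (7 * J) ≤
        Real.sqrt (2 / J) + (a ^ 3 + 1) / J := by
      rw [hAdef, h1]
      have h3 : Real.sqrt (2 / J) + 1 / 7 / J + (a ^ 3 + 8 / 21) / J + 1 / 7 / J =
          Real.sqrt (2 / J) + (a ^ 3 + 2 / 3) / J := by
        field_simp
        ring
      rw [h3]
      have h4 : (a ^ 3 + 2 / 3) / (J : ℝ) ≤ (a ^ 3 + 1) / J :=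
        div_le_div_of_nonneg_right (by linarith) hJ'.le
      linarith
    calc _ = (A + (a ^ 3 + 8 / 21) / J + 1 / (7 * J)) * H := by ring
      _ ≤ _ := mul_le_mul_of_nonneg_right h2 hH0.le
  linarith

end Pool.Agent.TH850.NR
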