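import Pool.Agent.TH850.NR.Phi

/-! # The Fourier transform of the averages of Fejer kernels -/

set_option autoImplicit false

open MeasureTheory Set Filter Topology

namespace Pool.Agent.TH850.NR

lemma int_sym (g : ℝ → ℝ) (hg : Continuous g) (μ : ℝ) :
    ∫ α in (-μ)..μ, g α = ∫ α in (0 : ℝ)..μ, (g α + g (-α)) := by
  rw [← intervalIntegral.integral_add_adjacent_intervals (b := 0) (hg.intervalIntegrable _ _)
    (hg.intervalIntegrable _ _)]
  have h5 : ∫ α in (-μ)..0, g α = ∫ α in (0 : ℝ)..μ, g (-α) := by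
    have := intervalIntegral.integral_comp_neg (a := (0 : ℝ)) (b := μ) g
    rw [neg_zero] at this
    exact this.symm
  have hg2 : Continuous fun α : ℝ => g (-α) := hg.comp continuous_neg
  rw [h5, intervalIntegral.integral_add (hg.intervalIntegrable _ _)
    (hg2.intervalIntegrable _ _)]
  ring

lemma one_scale (s : ℝ) (hs : 2 ≤ s) (x : ℝ) :
    ∫ α in (-(1 / 2 : ℝ))..(1 / 2), s * max 0 (1 - s * |α|) * Real.cos (2 * Real.pi * α * x) =
      Real.sinc (Real.pi * x / s) ^ 2 := by
  have hpi := Real.pi_pos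
  have hs0 : 0 < s := by linarith
  have h1s : 1 / s ≤ 1 / 2 := one_div_le_one_div_of_le (by norm_num) hs
  have h1s0 : 0 < 1 / s := by positivity
  rw [int_sym (fun α => s * max 0 (1 - s * |α|) * Real.cos (2 * Real.pi * α * x)) (by fun_prop)]
  have e1 : ∀ α ∈ Set.uIcc (0 : ℝ) (1 / 2), s * max 0 (1 - s * |α|) * Real.cos (2 * Real.pi * α * x) +
      s * max 0 (1 - s * |-α|) * Real.cos (2 * Real.pi * -α * x) =
      2 * (s * max 0 (1 - s * α) * Real.cos (2 * Real.pi * x * α)) := by
    intro α hα
    rw [Set.uIcc_of_le (by norm_num)] at hα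
    rw [abs_neg, abs_of_nonneg hα.1, show 2 * Real.pi * -α * x = -(2 * Real.pi * x * α) by ring,
      Real.cos_neg, show 2 * Real.pi * α * x = 2 * Real.pi * x * α by ring]
    ring
  rw [intervalIntegral.integral_congr e1]
  have hc : Continuous fun α : ℝ => 2 * (s * max 0 (1 - s * α) * Real.cos (2 * Real.pi * x * α)) := by
    fun_prop
  rw [← intervalIntegral.integral_add_adjacent_intervals (b := 1 / s) (hc.intervalIntegrable _ _)
    (hc.intervalIntegrable _ _)]
  have e2 : ∫ α in (1 / s)..(1 / 2), 2 * (s * max 0 (1 - s * α) * Real.cos (2 * Real.pi * x * α)) = 0 := by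
    rw [intervalIntegral.integral_congr (g := fun _ => 0)]
    · simp
    · intro α hα
      rw [Set.uIcc_of_le h1s] at hα
      have : 1 - s * α ≤ 0 := by
        have := hα.1
        rw [div_le_iff₀ hs0] at this
        linarith
      show 2 * (s * max 0 (1 - s * α) * Real.cos (2 * Real.pi * x * α)) = 0
      rw [max_eq_left this]
      ring
  have e3 : ∫ α in (0 : ℝ)..(1 / s), 2 * (s * max 0 (1 - s * α) * Real.cos (2 * Real.pi * x * α)) =
      ∫ α in (0 : ℝ)..(1 / s), 2 * (s * (1 - s * α) * Real.cos (2 * Real.pi * x * α)) := by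
    refine intervalIntegral.integral_congr fun α hα => ?_
    rw [Set.uIcc_of_le h1s0.le] at hα
    have : 0 ≤ 1 - s * α := by
      have := hα.2
      rw [le_div_iff₀ hs0] at this
      linarith
    show 2 * (s * max 0 (1 - s * α) * Real.cos (2 * Real.pi * x * α)) = _
    rw [max_eq_right this]
  rw [e2, e3, add_zero]
  by_cases hx : x = 0
  · subst hx
    have hd : ∀ α ∈ Set.uIcc (0 : ℝ) (1 / s), HasDerivAt (fun α : ℝ => 2 * s * α - s ^ 2 * α ^ 2)
        (2 * (s * (1 - s * α) * Real.cos (2 * Real.pi * 0 * α))) α := by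
      intro α _
      have h := ((hasDerivAt_id' α).const_mul (2 * s)).sub (((hasDerivAt_id' α).pow 2).const_mul (s ^ 2))
      refine h.congr_deriv ?_
      norm_num
      ring
    rw [intervalIntegral.integral_eq_sub_of_hasDerivAt hd
      (Continuous.intervalIntegrable (by fun_prop) _ _)]
    simp
    field_simp
    ring
  · have hk : 2 * Real.pi * x ≠ 0 := by positivity
    set k := 2 * Real.pi * x with hkdef
    have hd : ∀ α ∈ Set.uIcc (0 : ℝ) (1 / s), HasDerivAt
        (fun α : ℝ => 2 * (s * (1 - s * α) * (Real.sin (k * α) / k) - s ^ 2 * (Real.cos (k * α) / k ^ 2)))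
        (2 * (s * (1 - s * α) * Real.cos (k * α))) α := by
      intro α _
      have hlin : HasDerivAt (fun α : ℝ => k * α) k α := by
        simpa using (hasDerivAt_id' α).const_mul k
      have hsin := (hlin.sin).div_const k
      have hcos := (hlin.cos).div_const (k ^ 2)
      have hfac : HasDerivAt (fun α : ℝ => s * (1 - s * α)) (s * (-(s * 1))) α :=
        (((hasDerivAt_id' α).const_mul s).const_sub 1).const_mul s
      have h := ((hfac.mul hsin).sub (hcos.const_mul (s ^ 2))).const_mul 2
      refine h.congr_deriv ?_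
      field_simp
      ring
    rw [intervalIntegral.integral_eq_sub_of_hasDerivAt hd
      (Continuous.intervalIntegrable (by fun_prop) _ _)]
    have hy : Real.pi * x / s ≠ 0 := by positivity
    rw [Real.sinc_of_ne_zero hy]
    have h2 : k * (1 / s) = 2 * (Real.pi * x / s) := by rw [hkdef]; ring
    have h3 : Real.cos (k * (1 / s)) = 1 - 2 * Real.sin (Real.pi * x / s) ^ 2 := by
      rw [h2, Real.cos_two_mul, Real.cos_sq']
      ring
    rw [h3]
    simp only [mul_zero, Real.sin_zero, Real.cos_zero, zero_div]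
    have h4 : s * (1 - s * (1 / s)) = 0 := by field_simp; ring
    rw [h4, hkdef]
    field_simp
    ring

/-- the transform of `tri` -/
lemma trans (J : ℕ) (x : ℝ) :
    ∫ α in (-(1 / 2 : ℝ))..(1 / 2), tri J α * Real.cos (2 * Real.pi * α * x) = phi J x := by
  unfold tri phi
  have h1 : ∀ α : ℝ, (∑ j ∈ Finset.Icc 1 J, 2 ^ j * max 0 (1 - 2 ^ j * |α|)) / J *
      Real.cos (2 * Real.pi * α * x) =
      (∑ j ∈ Finset.Icc 1 J, 2 ^ j * max 0 (1 - 2 ^ j * |α|) * Real.cos (2 * Real.pi * α * x)) / J := by
    intro α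
    rw [← Finset.sum_mul, div_mul_eq_mul_div]
  simp_rw [h1]
  rw [intervalIntegral.integral_div, intervalIntegral.integral_finsetSum]
  · congr 1
    refine Finset.sum_congr rfl fun j hj => ?_
    rw [Finset.mem_Icc] at hj
    have h2 : (2 : ℝ) ≤ 2 ^ j := by
      calc (2 : ℝ) = 2 ^ 1 := by norm_num
        _ ≤ 2 ^ j := pow_le_pow_right₀ (by norm_num) hj.1
    exact one_scale (2 ^ j) h2 x
  · intro j _
    exact Continuous.intervalIntegrable (by fun_prop) _ _

end Pool.Agent.TH850.NR
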