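import Pool.Agent.TH850.NR.Core
import Pool.Agent.H345R2.A2.Smooth

/-! # Number rigidity of the zeros: assembly -/

set_option autoImplicit false

open MeasureTheory Set Filter Topology

namespace Pool.Agent.TH850.NR

open H370 H370.A2 H370.AS

/-- the nontrivial zeros of zeta -/
def zeros : Set ℂ := {s : ℂ | riemannZeta s = 0 ∧ 0 < s.re ∧ s.re < 1}

/-- the position of the ordinate of `s` relative to `t` at the scale of the mean spacing -/
noncomputable def X (T t : ℝ) (s : ℂ) : ℝ := (s.im - t) * Real.log T / (2 * Real.pi)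

/-- the number of zeros in the window -/
noncomputable def count (T a t : ℝ) : ℕ :=
  ∑ᶠ s ∈ {s : ℂ | s ∈ zeros ∧ |X T t s| ≤ a}, analyticOrderNatAt riemannZeta s

/-- the statistic of the zeros outside the window -/
noncomputable def outer (J : ℕ) (T a t : ℝ) : ℝ :=
  ∑ᶠ s ∈ {s : ℂ | s ∈ zeros ∧ a < |X T t s| ∧ |X T t s| ≤ 4 ^ J},
    (analyticOrderNatAt riemannZeta s : ℝ) * phi J (X T t s)

/-- the guess for the number of zeros in the window -/
noncomputable def guess (J : ℕ) (T a t : ℝ) : ℝ := cc J - outer J T a t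

lemma X_eq (T t : ℝ) (s : ℂ) : X T t s = (s.im - t) * (Real.log T / (2 * Real.pi)) := by
  unfold X; rw [mul_div_assoc]

lemma mem_Z {A B : ℝ} (hA : 1 ≤ A) {s : ℂ} :
    s ∈ Zf riemannZeta A B ↔ s ∈ zeros ∧ A < s.im ∧ s.im ≤ B := by
  rw [mem_Zf good_zeta hA]
  unfold zset zeros
  simp only [mem_ofPred_eq]
  tauto

lemma fin_eq {M : Type*} [AddCommMonoid M] {A B : ℝ} (hA : 1 ≤ A) (p : ℂ → Prop) [DecidablePred p]
    (hp : ∀ s, p s → A < s.im ∧ s.im ≤ B) (f : ℂ → M) :
    ∑ᶠ s ∈ {s : ℂ | s ∈ zeros ∧ p s}, f s = ∑ s ∈ Zf riemannZeta A B, if p s then f s else 0 := by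
  have h1 : {s : ℂ | s ∈ zeros ∧ p s} = ↑((Zf riemannZeta A B).filter p) := by
    ext s
    simp only [mem_ofPred_eq, Finset.coe_filter]
    rw [mem_Z hA]
    constructor
    · rintro ⟨h1, h2⟩
      exact ⟨⟨h1, hp s h2⟩, h2⟩
    · rintro ⟨⟨h1, _⟩, h2⟩
      exact ⟨h1, h2⟩
  rw [h1, finsum_mem_coe_finset, Finset.sum_filter]

lemma near {a w u H t : ℝ} (hw : 0 < w) (haw : 2 * a ≤ w) (ht : t ∈ Icc u (u + H)) (x : ℝ)
    (hx : |(x - t) * w| ≤ a) : u - 1 < x ∧ x ≤ u + H + 1 := by
  rw [abs_mul, abs_of_pos hw] at hx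
  have h1 : |x - t| ≤ 1 / 2 := by
    by_contra hcon
    push Not at hcon
    nlinarith
  rw [abs_le] at h1
  obtain ⟨h2, h3⟩ := h1
  obtain ⟨h4, h5⟩ := ht
  constructor <;> linarith

/-- the count and the guess are linear statistics -/
lemma convert (J : ℕ) {T a u H t : ℝ} (hu : 2 ≤ u) (hL : 0 < Real.log T)
    (h1 : 2 * a ≤ Real.log T / (2 * Real.pi)) (h2 : 2 * 4 ^ J ≤ Real.log T / (2 * Real.pi))
    (ht : t ∈ Icc u (u + H)) :
    (count T a t : ℝ) = Lin (Zf riemannZeta (u - 1) (u + H + 1))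
      (fun s => (mult riemannZeta s : ℝ)) (fun s => s.im) (Real.log T / (2 * Real.pi)) (kone a) t ∧
    guess J T a t = cc J - Lin (Zf riemannZeta (u - 1) (u + H + 1))
      (fun s => (mult riemannZeta s : ℝ)) (fun s => s.im) (Real.log T / (2 * Real.pi))
      (kmid a (4 ^ J) (phi J)) t := by
  classical
  have hw : 0 < Real.log T / (2 * Real.pi) := by have := Real.pi_pos; positivity
  set w := Real.log T / (2 * Real.pi) with hwdef
  have hA : 1 ≤ u - 1 := by linarith
  constructor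
  · unfold count Lin
    rw [fin_eq (A := u - 1) (B := u + H + 1) hA (fun s => |X T t s| ≤ a)
      (fun s hs => by rw [X_eq] at hs; exact near hw h1 ht _ hs)]
    push_cast
    refine Finset.sum_congr rfl fun s _ => ?_
    unfold kone mult
    rw [X_eq, ← hwdef]
    split_ifs <;> simp
  · unfold guess outer Lin
    rw [fin_eq (A := u - 1) (B := u + H + 1) hA (fun s => a < |X T t s| ∧ |X T t s| ≤ 4 ^ J)
      (fun s hs => by
        obtain ⟨_, hs⟩ := hs
        rw [X_eq] at hs
        exact near hw h2 ht _ hs)]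
    congr 1
    refine Finset.sum_congr rfl fun s _ => ?_
    unfold kmid mult
    rw [X_eq, ← hwdef]
    split_ifs <;> simp

lemma log_sq {T x : ℝ} (hT : 10 ≤ T) (hx1 : 1 ≤ x) (hx : x ≤ 4 * T) :
    Real.log x ≤ 2 * Real.log T := by
  calc Real.log x ≤ Real.log (T ^ 2) := Real.log_le_log (by linarith) (by nlinarith)
    _ = 2 * Real.log T := by rw [Real.log_pow]; push_cast; ring

/-- the estimate in one window -/
theorem one_window (J : ℕ) (hJ : 1 ≤ J) (a : ℝ) (ha : 0 ≤ a) :
    ∃ T0 : ℝ, 10 ≤ T0 ∧ ∃ H0 : ℝ, ∀ T : ℝ, T0 ≤ T → ∀ H : ℝ, H0 ≤ H → H ≤ T / 8 →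
    ∀ u ∈ Icc T (2 * T),
      |(NN riemannZeta u (u + H) : ℝ) - H * Real.log T / (2 * Real.pi)| ≤
        ee J * (H * Real.log T / (2 * Real.pi)) →
      |PP (fun α => tri J α ^ 2) (1 / 2) u (u + H) (Real.log T) -
        (H * Real.log T / (2 * Real.pi)) * (tri J 0 ^ 2 +
          ∫ α in (-(1 / 2 : ℝ))..(1 / 2), |α| * tri J α ^ 2)| ≤
        ee J * (H * Real.log T / (2 * Real.pi)) →
      IntervalIntegrable (fun t => (count T a t : ℝ) - guess J T a t) volume u (u + H) ∧
      ∫ t in u..(u + H), |(count T a t : ℝ) - guess J T a t| ≤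
        (Real.sqrt (2 / J) + (a ^ 3 + 1) / J) * H := by
  classical
  obtain ⟨C, hC, hz⟩ := zcount good_zeta
  have hpi := Real.pi_pos
  obtain ⟨w0, hw0, H0, hH0, hcore⟩ := core (ι := ℂ) J hJ a ha (8 * Real.pi * C) (by positivity)
  obtain ⟨T1, hT1⟩ := (Real.tendsto_log_atTop.eventually_ge_atTop
    (2 * Real.pi * max w0 (max (2 * a) (2 * 4 ^ J)))).exists_forall_of_atTop
  refine ⟨max 10 T1, le_max_left _ _, max H0 2, fun T hT H hH hHT u hu hcount hpair => ?_⟩
  have hT10 : 10 ≤ T := (le_max_left _ _).trans hT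
  have hlog := hT1 T ((le_max_right _ _).trans hT)
  have hL : 0 < Real.log T := Real.log_pos (by linarith)
  have hw : 0 < Real.log T / (2 * Real.pi) := by positivity
  have hmax : max w0 (max (2 * a) (2 * 4 ^ J)) ≤ Real.log T / (2 * Real.pi) := by
    rw [le_div_iff₀ (by positivity)]
    linarith
  have g1 : w0 ≤ Real.log T / (2 * Real.pi) := (le_max_left _ _).trans hmax
  have g2 : 2 * a ≤ Real.log T / (2 * Real.pi) :=
    ((le_max_left _ _).trans (le_max_right _ _)).trans hmax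
  have g3 : 2 * 4 ^ J ≤ Real.log T / (2 * Real.pi) :=
    ((le_max_right _ _).trans (le_max_right _ _)).trans hmax
  have hH0' : H0 ≤ H := (le_max_left _ _).trans hH
  have hH2 : 2 ≤ H := (le_max_right _ _).trans hH
  obtain ⟨hu1, hu2⟩ := hu
  set L := Real.log T with hLdef
  set w := L / (2 * Real.pi) with hwdef
  have hHw : H * L / (2 * Real.pi) = H * w := by rw [hwdef, mul_div_assoc]
  rw [hHw] at hcount hpair
  have hLw : L = 2 * Real.pi * w := by rw [hwdef]; field_simp
  set Z := riemannZeta with hZ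
  have hsum : ∀ A B : ℝ, 1 ≤ A → ∑ s ∈ Zf Z A B, (mult Z s : ℝ) = NN Z A B := by
    intro A B hA
    rw [NN_eq good_zeta hA]
    push_cast
    rfl
  -- counts of zeros in intervals of length at most one
  have hshort : ∀ x : ℝ, T - 1 ≤ x → x ≤ 4 * T - 1 → (NN Z x (x + 1) : ℝ) ≤ 2 * C * L := by
    intro x hx1 hx2
    have h1 := hz (x + 1) (by linarith)
    have h2 : (NN Z x (x + 1) : ℝ) ≤ NN Z (x + 1 - 1) (x + 1 + 1) := by
      exact_mod_cast NN_mono good_zeta (by linarith) (by linarith) (by linarith)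
    calc (NN Z x (x + 1) : ℝ) ≤ C * Real.log (x + 1) := h2.trans h1
      _ ≤ C * (2 * L) := mul_le_mul_of_nonneg_left
          (log_sq hT10 (by linarith) (by linarith)) hC.le
      _ = _ := by ring
  have a1 : NN Z (u - 1) (u + H + 1) = NN Z (u - 1) u + (NN Z u (u + H) +
      NN Z (u + H) (u + H + 1)) := by
    rw [NN_add good_zeta (a := u - 1) (b := u) (c := u + H + 1) (by linarith) (by linarith)
      (by linarith), NN_add good_zeta (a := u) (b := u + H) (c := u + H + 1) (by linarith)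
      (by linarith) (by linarith)]
  have a2 : NN Z u (u + H) = NN Z u (u + 1) + (NN Z (u + 1) (u + H - 1) +
      NN Z (u + H - 1) (u + H)) := by
    rw [NN_add good_zeta (a := u) (b := u + 1) (c := u + H) (by linarith) (by linarith)
      (by linarith), NN_add good_zeta (a := u + 1) (b := u + H - 1) (c := u + H) (by linarith)
      (by linarith) (by linarith)]
  have b1 := hshort (u - 1) (by linarith) (by linarith)
  have b2 := hshort (u + H) (by linarith) (by linarith)
  have b3 := hshort u (by linarith) (by linarith)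
  have b4 := hshort (u + H - 1) (by linarith) (by linarith)
  rw [sub_add_cancel] at b1 b4
  obtain ⟨hc1, hc2⟩ := abs_le.1 hcount
  obtain ⟨_, hp2⟩ := abs_le.1 hpair
  have h8 : 8 * Real.pi * C * w = 4 * C * L := by rw [hLw]; ring
  have hS1 : Zf Z (u + 1) (u + H - 1) ⊆ Zf Z u (u + H) := by
    intro s hs
    rw [mem_Z (by linarith)] at hs ⊢
    exact ⟨hs.1, by linarith [hs.2.1], by linarith [hs.2.2]⟩
  have hS2 : Zf Z u (u + H) ⊆ Zf Z (u - 1) (u + H + 1) := by
    intro s hs
    rw [mem_Z (by linarith)] at hs ⊢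
    exact ⟨hs.1, by linarith [hs.2.1], by linarith [hs.2.2]⟩
  have hvar := variance J hJ
  obtain ⟨r1, r2⟩ := hcore (Zf Z (u + 1) (u + H - 1)) (Zf Z u (u + H))
    (Zf Z (u - 1) (u + H + 1)) (fun s => (mult Z s : ℝ)) (fun s => s.im) w u H hS1 hS2
    (fun _ => Nat.cast_nonneg _) g1 hH0'
    (fun s hs => by
      rw [mem_Z (by linarith)] at hs
      exact ⟨by linarith [hs.2.1], by linarith [hs.2.2]⟩)
    (by rw [hsum u (u + H) (by linarith)]; linarith)
    (by
      rw [hsum (u + 1) (u + H - 1) (by linarith), h8]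
      have : (NN Z u (u + H) : ℝ) = NN Z u (u + 1) + (NN Z (u + 1) (u + H - 1) +
          NN Z (u + H - 1) (u + H)) := by exact_mod_cast a2
      linarith)
    (by
      have h1 := Finset.sum_sdiff (f := fun s => (mult Z s : ℝ)) hS2
      rw [hsum u (u + H) (by linarith), hsum (u - 1) (u + H + 1) (by linarith)] at h1
      have : (NN Z (u - 1) (u + H + 1) : ℝ) = NN Z (u - 1) u + (NN Z u (u + H) +
          NN Z (u + H) (u + H + 1)) := by exact_mod_cast a1
      rw [h8]
      linarith)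
    (by
      have h1 : PP (fun α => tri J α ^ 2) (1 / 2) u (u + H) L = ∑ s ∈ Zf Z u (u + H),
          ∑ s' ∈ Zf Z u (u + H), (mult Z s : ℝ) * (mult Z s' : ℝ) *
            au J ((s.im - s'.im) * w) := by
        unfold H370.A2.PP
        rw [finsum_Zf good_zeta (by linarith)]
        refine Finset.sum_congr rfl fun s _ => ?_
        rw [finsum_Zf good_zeta (by linarith)]
        refine Finset.sum_congr rfl fun s' _ => ?_
        rw [RR_sq J hJ, mul_div_assoc]
      rw [h1, tri_zero] at hp2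
      have h2 : (H * w) * (∫ α in (-(1 / 2 : ℝ))..(1 / 2), |α| * tri J α ^ 2) ≤
          (H * w) * (2 / J) := mul_le_mul_of_nonneg_left hvar (by positivity)
      calc _ ≤ (H * w) * (cc J ^ 2 + ∫ α in (-(1 / 2 : ℝ))..(1 / 2), |α| * tri J α ^ 2) +
            ee J * (H * w) := by linarith
        _ ≤ _ := by linarith)
  have hconv : ∀ t ∈ Icc u (u + H), (count T a t : ℝ) - guess J T a t =
      Lin (Zf Z (u - 1) (u + H + 1)) (fun s => (mult Z s : ℝ)) (fun s => s.im) w (kone a) t -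
        (cc J - Lin (Zf Z (u - 1) (u + H + 1)) (fun s => (mult Z s : ℝ)) (fun s => s.im) w
          (kmid a (4 ^ J) (phi J)) t) := by
    intro t ht
    obtain ⟨h1, h2⟩ := convert J (T := T) (a := a) (u := u) (H := H) (t := t) (by linarith) hL
      g2 g3 ht
    rw [h1, h2]
  have hle : u ≤ u + H := by linarith
  constructor
  · refine r1.congr ?_
    intro t ht
    rw [uIoc_of_le hle] at ht
    exact (hconv t ⟨ht.1.le, ht.2⟩).symm
  · refine le_trans (le_of_eq ?_) r2
    refine intervalIntegral.integral_congr fun t ht => ?_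
    rw [uIcc_of_le hle] at ht
    show |(count T a t : ℝ) - guess J T a t| = _
    rw [hconv t ht]

/-- number rigidity on average -/
theorem rigid (hRH : RiemannHypothesis) (η a : ℝ) (hη0 : 0 < η) (hη1 : η < 1) (ha : 0 ≤ a)
    (J : ℕ) (hJ : 1 ≤ J) :
    ∃ δ : ℝ, 0 < δ ∧ ∃ T0 : ℝ, 10 ≤ T0 ∧ ∀ T : ℝ, T0 ≤ T → ∀ H : ℝ, T ^ η ≤ H → H ≤ T / 8 →
      volume {u : ℝ | u ∈ Icc T (2 * T) ∧
        ¬ (IntervalIntegrable (fun t => (count T a t : ℝ) - guess J T a t) volume u (u + H) ∧
          ∫ t in u..(u + H), |(count T a t : ℝ) - guess J T a t| ≤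
            (Real.sqrt (2 / J) + (a ^ 3 + 1) / J) * H)} ≤ ENNReal.ofReal (T ^ (1 - δ)) := by
  obtain ⟨K, hK⟩ := tri_sq_lip J
  have hz : ∀ x : ℝ, 1 / 2 ≤ |x| → tri J x ^ 2 = 0 := fun x hx => by
    rw [tri_supp J x hx]; norm_num
  obtain ⟨δ1, hδ1, T1, hT1, h1⟩ := almost_smooth hRH η (1 / 2) (ee J) hη0 hη1 (by norm_num)
    (by linarith) (ee_pos J hJ) (fun α => tri J α ^ 2) K hK hz
    (8 * (4 ^ J / (7 * J)) * cc J) (au_decay J hJ)
  obtain ⟨δ2, hδ2, T2, hT2, h2⟩ := almost_psi good_zeta lamC_norm (fun s hs _ => ld_zeta s hs)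
    le_rfl (bz_rh hRH) η (1 / 2) (ee J) hη0 hη1 (by norm_num) (by linarith) (by linarith)
    (ee_pos J hJ) (fun α => tri J α ^ 2) K hK hz
  obtain ⟨T3, hT3, H0, h3⟩ := one_window J hJ a ha
  have hδ : 0 < min δ1 δ2 / 2 := by
    have := lt_min hδ1 hδ2
    linarith
  obtain ⟨T4, hT4⟩ := ((tendsto_rpow_atTop hη0).eventually_ge_atTop H0).exists_forall_of_atTop
  obtain ⟨T5, hT5⟩ := ((tendsto_rpow_atTop hδ).eventually_ge_atTop 2).exists_forall_of_atTop
  refine ⟨min δ1 δ2 / 2, hδ, max (max T1 T2) (max T3 (max T4 T5)),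
    hT1.trans ((le_max_left _ _).trans (le_max_left _ _)), fun T hT H hH1 hH2 => ?_⟩
  have k1 : T1 ≤ T := ((le_max_left _ _).trans (le_max_left _ _)).trans hT
  have k2 : T2 ≤ T := ((le_max_right _ _).trans (le_max_left _ _)).trans hT
  have k3 : T3 ≤ T := ((le_max_left _ _).trans (le_max_right _ _)).trans hT
  have k4 : T4 ≤ T := (((le_max_left _ _).trans (le_max_right _ _)).trans (le_max_right _ _)).trans hT
  have k5 : T5 ≤ T := (((le_max_right _ _).trans (le_max_right _ _)).trans (le_max_right _ _)).trans hT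
  have hT1' : 1 ≤ T := by linarith
  have hT0 : 0 < T := by linarith
  have hH0 : H0 ≤ H := (hT4 T k4).trans hH1
  have m1 := h1 T k1 H hH1 hH2
  have m2 := h2 T k2 H hH1 hH2
  refine (measure_mono (t := _ ∪ _) ?_).trans ((measure_union_le _ _).trans
    ((add_le_add m1 m2).trans ?_))
  · rintro u ⟨hu1, hu2⟩
    by_contra hcon
    rw [mem_union, not_or] at hcon
    obtain ⟨c1, c2⟩ := hcon
    have c1' := not_not.1 (fun h => c1 ⟨hu1, h⟩)
    have c2' := not_not.1 (fun h => c2 ⟨hu1, h⟩)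
    exact hu2 (h3 T k3 H hH0 hH2 u hu1 c2'.1 c1')
  · rw [← ENNReal.ofReal_add (by positivity) (by positivity)]
    apply ENNReal.ofReal_le_ofReal
    have e1 : T ^ (1 - δ1) ≤ T ^ (1 - min δ1 δ2) :=
      Real.rpow_le_rpow_of_exponent_le hT1' (by linarith [min_le_left δ1 δ2])
    have e2 : T ^ (1 - δ2) ≤ T ^ (1 - min δ1 δ2) :=
      Real.rpow_le_rpow_of_exponent_le hT1' (by linarith [min_le_right δ1 δ2])
    have e3 : T ^ (1 - min δ1 δ2 / 2) = T ^ (1 - min δ1 δ2) * T ^ (min δ1 δ2 / 2) := by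
      rw [← Real.rpow_add hT0]
      congr 1
      ring
    have e4 := hT5 T k5
    have e5 : 0 ≤ T ^ (1 - min δ1 δ2) := by positivity
    rw [e3]
    nlinarith

/-- Markov: the nearest integer to the guess is the count, for most `t` -/
lemma markov (J : ℕ) {T a u H κ : ℝ} (hH : 0 ≤ H)
    (hI : IntervalIntegrable (fun t => (count T a t : ℝ) - guess J T a t) volume u (u + H))
    (hB : ∫ t in u..(u + H), |(count T a t : ℝ) - guess J T a t| ≤ κ * H) :
    volume {t : ℝ | u ≤ t ∧ t ≤ u + H ∧ round (guess J T a t) ≠ (count T a t : ℤ)} ≤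
      ENNReal.ofReal (2 * (κ * H)) := by
  have hle : u ≤ u + H := by linarith
  set f : ℝ → ℝ := fun t => |(count T a t : ℝ) - guess J T a t| with hf
  have hfi : IntegrableOn f (Icc u (u + H)) := by
    have := hI.abs
    rwa [intervalIntegrable_iff_integrableOn_Icc_of_le hle] at this
  have hm := mul_meas_ge_le_integral_of_nonneg (μ := volume.restrict (Icc u (u + H)))
    (Eventually.of_forall fun t => abs_nonneg _ : 0 ≤ᵐ[volume.restrict (Icc u (u + H))] f) hfi
    (1 / 2)
  have hsub : {t : ℝ | u ≤ t ∧ t ≤ u + H ∧ round (guess J T a t) ≠ (count T a t : ℤ)} ⊆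
      {t | 1 / 2 ≤ f t} ∩ Icc u (u + H) := by
    rintro t ⟨ht1, ht1', ht2⟩
    refine ⟨?_, ht1, ht1'⟩
    by_contra hcon
    simp only [mem_ofPred_eq, not_le, hf] at hcon
    apply ht2
    rw [round_eq, Int.floor_eq_iff]
    rw [abs_lt] at hcon
    push_cast
    constructor <;> linarith [hcon.1, hcon.2]
  have hfin : volume.restrict (Icc u (u + H)) {t | 1 / 2 ≤ f t} ≠ ⊤ := by
    refine ((measure_mono (subset_univ _)).trans_lt ?_).ne
    rw [Measure.restrict_apply_univ, Real.volume_Icc]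
    exact ENNReal.ofReal_lt_top
  have hint : ∫ t in Icc u (u + H), f t ≤ κ * H := by
    rw [integral_Icc_eq_integral_Ioc, ← intervalIntegral.integral_of_le hle]
    exact hB
  calc volume {t : ℝ | u ≤ t ∧ t ≤ u + H ∧ round (guess J T a t) ≠ (count T a t : ℤ)} ≤
      volume ({t | 1 / 2 ≤ f t} ∩ Icc u (u + H)) := measure_mono hsub
    _ = volume.restrict (Icc u (u + H)) {t | 1 / 2 ≤ f t} :=
        (Measure.restrict_apply' measurableSet_Icc).symm
    _ = ENNReal.ofReal ((volume.restrict (Icc u (u + H))).real {t | 1 / 2 ≤ f t}) := by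
        rw [Measure.real, ENNReal.ofReal_toReal hfin]
    _ ≤ ENNReal.ofReal (2 * (κ * H)) := by
        apply ENNReal.ofReal_le_ofReal
        linarith

end Pool.Agent.TH850.NR
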