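import Mathlib

/-!
# Averages of Fejer kernels on dyadic scales

`phi J x` is the average of the functions `(sin (π x / 2 ^ j) / (π x / 2 ^ j)) ^ 2`, `j = 1, …, J`,
and `tri J` its Fourier transform, the average of the functions `2 ^ j (1 - 2 ^ j |α|)`, truncated at `0`.
-/

set_option autoImplicit false

open MeasureTheory Set Filter Topology

namespace Pool.Agent.TH850.NR

/-- the average of the Fejer kernels on the scales `2, 4, …, 2 ^ J` -/
noncomputable def phi (J : ℕ) (x : ℝ) : ℝ :=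
  (∑ j ∈ Finset.Icc 1 J, Real.sinc (Real.pi * x / 2 ^ j) ^ 2) / J

/-- its Fourier transform -/
noncomputable def tri (J : ℕ) (α : ℝ) : ℝ :=
  (∑ j ∈ Finset.Icc 1 J, 2 ^ j * max 0 (1 - 2 ^ j * |α|)) / J

/-- the mean value `(2 ^ (J + 1) - 2) / J` -/
noncomputable def cc (J : ℕ) : ℝ := (2 ^ (J + 1) - 2) / J

lemma phi_nonneg (J : ℕ) (x : ℝ) : 0 ≤ phi J x := by
  unfold phi; positivity

lemma phi_even (J : ℕ) (x : ℝ) : phi J (-x) = phi J x := by
  unfold phi
  congr 1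
  refine Finset.sum_congr rfl fun j _ => ?_
  rw [show Real.pi * -x / 2 ^ j = -(Real.pi * x / 2 ^ j) by ring, Real.sinc_neg]

lemma phi_cont (J : ℕ) : Continuous (phi J) := by
  unfold phi
  fun_prop

lemma sinc_sq_le_one (y : ℝ) : Real.sinc y ^ 2 ≤ 1 := by
  have h := Real.abs_sinc_le_one y
  rw [← sq_abs]
  have h0 := abs_nonneg (Real.sinc y)
  nlinarith

lemma phi_le_one (J : ℕ) (hJ : 1 ≤ J) (x : ℝ) : phi J x ≤ 1 := by
  unfold phi
  have hJ' : (0 : ℝ) < J := by exact_mod_cast hJ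
  rw [div_le_one hJ']
  calc ∑ j ∈ Finset.Icc 1 J, Real.sinc (Real.pi * x / 2 ^ j) ^ 2 ≤ ∑ j ∈ Finset.Icc 1 J, (1 : ℝ) :=
        Finset.sum_le_sum fun j _ => sinc_sq_le_one _
    _ = J := by simp

lemma phi_zero (J : ℕ) (hJ : 1 ≤ J) : phi J 0 = 1 := by
  unfold phi
  have hJ' : (J : ℝ) ≠ 0 := by
    have : (0 : ℝ) < J := by exact_mod_cast hJ
    exact this.ne'
  simp [hJ']

lemma sinc_sq_mul (y : ℝ) : Real.sinc y ^ 2 * y ^ 2 ≤ 1 := by
  by_cases hy : y = 0
  · simp [hy]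
  · rw [Real.sinc_of_ne_zero hy, div_pow, div_mul_cancel₀ _ (pow_ne_zero 2 hy)]
    exact Real.sin_sq_le_one y

lemma sum_four (J : ℕ) : ∑ j ∈ Finset.Icc 1 J, (4 : ℝ) ^ j = 4 / 3 * (4 ^ J - 1) := by
  induction J with
  | zero => simp
  | succ n ih =>
    rw [Finset.sum_Icc_succ_top (by omega), ih, pow_succ]
    ring

lemma sum_two (J : ℕ) : ∑ j ∈ Finset.Icc 1 J, (2 : ℝ) ^ j = 2 ^ (J + 1) - 2 := by
  induction J with
  | zero => simp
  | succ n ih =>
    rw [Finset.sum_Icc_succ_top (by omega), ih]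
    ring

lemma sum_quarter (J : ℕ) : ∑ j ∈ Finset.Icc 1 J, (1 : ℝ) / 4 ^ j = 1 / 3 * (1 - 1 / 4 ^ J) := by
  induction J with
  | zero => simp
  | succ n ih =>
    rw [Finset.sum_Icc_succ_top (by omega), ih, pow_succ]
    field_simp
    ring

/-- decay -/
lemma phi_decay (J : ℕ) (hJ : 1 ≤ J) (x : ℝ) : phi J x * x ^ 2 ≤ 4 ^ J / (7 * J) := by
  have hJ' : (0 : ℝ) < J := by exact_mod_cast hJ
  have hpi : 0 < Real.pi := Real.pi_pos
  have h1 : ∀ j : ℕ, Real.sinc (Real.pi * x / 2 ^ j) ^ 2 * x ^ 2 ≤ 4 ^ j / Real.pi ^ 2 := by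
    intro j
    have h := sinc_sq_mul (Real.pi * x / 2 ^ j)
    rw [le_div_iff₀ (by positivity)]
    have h4 : (4 : ℝ) ^ j = (2 ^ j) ^ 2 := by rw [← pow_mul, mul_comm j 2, pow_mul]; norm_num
    rw [h4]
    have h2 : (0 : ℝ) < 2 ^ j := by positivity
    rw [div_pow, mul_pow, mul_div_assoc', div_le_one (by positivity)] at h
    linarith
  unfold phi
  rw [div_mul_eq_mul_div, Finset.sum_mul, div_le_div_iff₀ hJ' (by positivity)]
  have h2 : ∑ j ∈ Finset.Icc 1 J, Real.sinc (Real.pi * x / 2 ^ j) ^ 2 * x ^ 2 ≤ 4 ^ J / 7 := by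
    calc _ ≤ ∑ j ∈ Finset.Icc 1 J, (4 : ℝ) ^ j / Real.pi ^ 2 := Finset.sum_le_sum fun j _ => h1 j
      _ = 4 / 3 * (4 ^ J - 1) / Real.pi ^ 2 := by rw [← Finset.sum_div, sum_four]
      _ ≤ 4 ^ J / 7 := by
        rw [div_le_div_iff₀ (by positivity) (by norm_num)]
        have h9 : (28 : ℝ) / 3 ≤ Real.pi ^ 2 := by nlinarith [Real.pi_gt_d2]
        have h0 : (0 : ℝ) < 4 ^ J := by positivity
        nlinarith
  nlinarith

/-- `sin y ≥ y - y ^ 3 / 6` -/
lemma sin_ge {y : ℝ} (hy : 0 ≤ y) : y - y ^ 3 / 6 ≤ Real.sin y := by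
  have hmono : MonotoneOn (fun t : ℝ => Real.sin t - (t - t ^ 3 / 6)) (Ici 0) := by
    apply monotoneOn_of_deriv_nonneg (convex_Ici 0) (by fun_prop) (by fun_prop)
    intro t _
    have hd : HasDerivAt (fun t : ℝ => Real.sin t - (t - t ^ 3 / 6))
        (Real.cos t - (1 - (3 : ℕ) * t ^ (3 - 1) * 1 / 6)) t :=
      (Real.hasDerivAt_sin t).sub ((hasDerivAt_id' t).sub (((hasDerivAt_id' t).pow 3).div_const 6))
    rw [hd.deriv]
    have := Real.one_sub_sq_div_two_le_cos (x := t)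
    norm_num
    nlinarith
  have h := hmono (mem_Ici.2 le_rfl) (mem_Ici.2 hy) hy
  simp at h
  linarith

lemma sinc_sq_ge (y : ℝ) : 1 - y ^ 2 / 3 ≤ Real.sinc y ^ 2 := by
  wlog h : 0 ≤ y with H
  · have := H (-y) (by linarith)
    rw [Real.sinc_neg] at this
    simpa using this
  rcases h.eq_or_lt with h0 | h0
  · rw [← h0]; simp
  · by_cases h3 : y ^ 2 ≤ 6
    · have h1 : 1 - y ^ 2 / 6 ≤ Real.sinc y := by
        rw [Real.sinc_of_ne_zero h0.ne', le_div_iff₀ h0]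
        have := sin_ge h
        nlinarith
      have h2 : 0 ≤ 1 - y ^ 2 / 6 := by linarith
      have h4 : (1 - y ^ 2 / 6) ^ 2 ≤ Real.sinc y ^ 2 := pow_le_pow_left₀ h2 h1 2
      nlinarith [sq_nonneg (y ^ 2)]
    · push Not at h3
      have := sq_nonneg (Real.sinc y)
      linarith

/-- `phi` is close to `1` on bounded sets -/
lemma one_sub_phi (J : ℕ) (hJ : 1 ≤ J) (x : ℝ) : 1 - phi J x ≤ Real.pi ^ 2 * x ^ 2 / (9 * J) := by
  have hJ' : (0 : ℝ) < J := by exact_mod_cast hJ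
  have h1 : (J : ℝ) - Real.pi ^ 2 * x ^ 2 / 9 ≤
      ∑ j ∈ Finset.Icc 1 J, Real.sinc (Real.pi * x / 2 ^ j) ^ 2 := by
    have h2 : ∀ j : ℕ, 1 - Real.pi ^ 2 * x ^ 2 / 3 * (1 / 4 ^ j) ≤
        Real.sinc (Real.pi * x / 2 ^ j) ^ 2 := by
      intro j
      refine le_trans (le_of_eq ?_) (sinc_sq_ge _)
      have h4 : (4 : ℝ) ^ j = (2 ^ j) ^ 2 := by rw [← pow_mul, mul_comm j 2, pow_mul]; norm_num
      rw [h4, div_pow, mul_pow]
      field_simp
    calc (J : ℝ) - Real.pi ^ 2 * x ^ 2 / 9 ≤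
        J - Real.pi ^ 2 * x ^ 2 / 3 * (1 / 3 * (1 - 1 / 4 ^ J)) := by
          have h3 : 0 ≤ Real.pi ^ 2 * x ^ 2 := by positivity
          have h4 : (0 : ℝ) < 1 / 4 ^ J := by positivity
          nlinarith [mul_nonneg h3 h4.le]
      _ = ∑ j ∈ Finset.Icc 1 J, (1 - Real.pi ^ 2 * x ^ 2 / 3 * (1 / 4 ^ j)) := by
          rw [Finset.sum_sub_distrib, ← Finset.mul_sum, sum_quarter]
          simp
      _ ≤ _ := Finset.sum_le_sum fun j _ => h2 j
  unfold phi
  rw [sub_le_iff_le_add, ← sub_le_iff_le_add', le_div_iff₀ hJ']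
  calc (1 - Real.pi ^ 2 * x ^ 2 / (9 * J)) * J = J - Real.pi ^ 2 * x ^ 2 / 9 := by
        field_simp
    _ ≤ _ := h1

lemma phi_integrable (J : ℕ) (hJ : 1 ≤ J) : Integrable (phi J) := by
  have hJ' : (0 : ℝ) < J := by exact_mod_cast hJ
  have h := (integrable_inv_one_add_sq).const_mul (1 + (4 : ℝ) ^ J / (7 * J))
  refine h.mono' (phi_cont J).aestronglyMeasurable (Eventually.of_forall fun x => ?_)
  rw [Real.norm_eq_abs, abs_of_nonneg (phi_nonneg J x), ← div_eq_mul_inv,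
    le_div_iff₀ (by positivity)]
  have h1 := phi_decay J hJ x
  have h2 := phi_le_one J hJ x
  nlinarith

/-! ### the Fourier transform -/

lemma tri_nonneg (J : ℕ) (α : ℝ) : 0 ≤ tri J α := by
  unfold tri
  refine div_nonneg (Finset.sum_nonneg fun j _ => ?_) (Nat.cast_nonneg _)
  have : 0 ≤ max 0 (1 - 2 ^ j * |α|) := le_max_left _ _
  positivity

lemma tri_even (J : ℕ) (α : ℝ) : tri J (-α) = tri J α := by unfold tri; rw [abs_neg]

lemma tri_cont (J : ℕ) : Continuous (tri J) := by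
  unfold tri
  fun_prop

lemma tri_supp (J : ℕ) (α : ℝ) (h : 1 / 2 ≤ |α|) : tri J α = 0 := by
  unfold tri
  rw [Finset.sum_eq_zero, zero_div]
  intro j hj
  rw [Finset.mem_Icc] at hj
  have h1 : (2 : ℝ) ≤ 2 ^ j := by
    calc (2 : ℝ) = 2 ^ 1 := by norm_num
      _ ≤ 2 ^ j := pow_le_pow_right₀ (by norm_num) hj.1
  rw [max_eq_left (by nlinarith), mul_zero]

lemma tri_zero (J : ℕ) : tri J 0 = cc J := by
  unfold tri cc
  rw [← sum_two]
  simp

/-- `|α| tri J α ≤ 2 / J` -/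
lemma abs_mul_tri (J : ℕ) (α : ℝ) : |α| * tri J α ≤ 2 / J := by
  have key : ∀ N : ℕ, |α| * ∑ j ∈ Finset.Icc 1 N, 2 ^ j * max 0 (1 - 2 ^ j * |α|) ≤
      2 - (if 2 ^ N * |α| ≤ 1 then (2 - 2 * (2 ^ N * |α|)) else 0) := by
    have ha := abs_nonneg α
    intro N
    induction N with
    | zero =>
      split_ifs with h
      · simp
      · simp
    | succ n ih =>
      rw [Finset.sum_Icc_succ_top (by omega), mul_add]
      have hp : (0 : ℝ) < 2 ^ n := by positivity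
      by_cases h1 : 2 ^ (n + 1) * |α| ≤ 1
      · have h2 : 2 ^ n * |α| ≤ 1 := by
          have : (2 : ℝ) ^ (n + 1) = 2 * 2 ^ n := by ring
          rw [this] at h1
          nlinarith [mul_nonneg hp.le ha]
        rw [if_pos h2] at ih
        rw [if_pos h1, max_eq_right (by linarith)]
        set y := 2 ^ n * |α| with hy
        have e1 : (2 : ℝ) ^ (n + 1) * |α| = 2 * y := by rw [hy]; ring
        have e2 : |α| * (2 ^ (n + 1) * (1 - 2 ^ (n + 1) * |α|)) = 2 * y * (1 - 2 * y) := by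
          rw [hy]; ring
        rw [e2, e1]
        have hy0 : 0 ≤ y := by positivity
        nlinarith
      · rw [if_neg h1]
        push Not at h1
        rw [max_eq_left (by linarith)]
        have : 0 ≤ (if 2 ^ n * |α| ≤ 1 then (2 - 2 * (2 ^ n * |α|)) else 0) := by
          split_ifs with h
          · linarith
          · exact le_rfl
        linarith
  have h := key J
  have : 0 ≤ (if 2 ^ J * |α| ≤ 1 then (2 - 2 * (2 ^ J * |α|)) else 0) := by
    split_ifs with h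
    · linarith
    · exact le_rfl
  unfold tri
  rw [mul_div_assoc']
  exact div_le_div_of_nonneg_right (by linarith) (Nat.cast_nonneg _)

lemma tri_le (J : ℕ) (α : ℝ) : tri J α ≤ cc J := by
  rw [← tri_zero]
  unfold tri
  refine div_le_div_of_nonneg_right (Finset.sum_le_sum fun j _ => ?_) (Nat.cast_nonneg _)
  have h1 : (0 : ℝ) < 2 ^ j := by positivity
  refine mul_le_mul_of_nonneg_left (max_le_max le_rfl ?_) h1.le
  have := abs_nonneg α
  simp

lemma cc_nonneg (J : ℕ) : 0 ≤ cc J := (tri_nonneg J 0).trans_eq (tri_zero J)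

lemma tri_lip (J : ℕ) : ∃ K : ℝ, ∀ x y, |tri J x - tri J y| ≤ K * |x - y| := by
  refine ⟨(∑ j ∈ Finset.Icc 1 J, 2 ^ j * 2 ^ j) / J, fun x y => ?_⟩
  unfold tri
  rw [← sub_div, ← Finset.sum_sub_distrib, abs_div, Nat.abs_cast, div_mul_eq_mul_div]
  refine div_le_div_of_nonneg_right ?_ (Nat.cast_nonneg _)
  refine (Finset.abs_sum_le_sum_abs _ _).trans ?_
  rw [Finset.sum_mul]
  refine Finset.sum_le_sum fun j _ => ?_
  have h1 : (0 : ℝ) < 2 ^ j := by positivity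
  rw [← mul_sub, abs_mul, abs_of_pos h1, mul_assoc]
  refine mul_le_mul_of_nonneg_left ?_ h1.le
  have h2 := abs_max_sub_max_le_abs (1 - 2 ^ j * |x|) (1 - 2 ^ j * |y|) 0
  rw [max_comm, max_comm 0 (1 - 2 ^ j * |y|)]
  refine h2.trans ?_
  have h3 : (1 - 2 ^ j * |x|) - (1 - 2 ^ j * |y|) = 2 ^ j * (|y| - |x|) := by ring
  rw [h3, abs_mul, abs_of_pos h1]
  refine mul_le_mul_of_nonneg_left ?_ h1.le
  rw [abs_sub_comm]
  exact abs_abs_sub_abs_le_abs_sub x y

lemma tri_sq_lip (J : ℕ) : ∃ K : ℝ, ∀ x y, |tri J x ^ 2 - tri J y ^ 2| ≤ K * |x - y| := by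
  obtain ⟨K, hK⟩ := tri_lip J
  refine ⟨2 * cc J * K, fun x y => ?_⟩
  have h1 : tri J x ^ 2 - tri J y ^ 2 = (tri J x + tri J y) * (tri J x - tri J y) := by ring
  rw [h1, abs_mul, abs_of_nonneg (add_nonneg (tri_nonneg J x) (tri_nonneg J y))]
  have h2 := hK x y
  have h3 := tri_le J x
  have h4 := tri_le J y
  have h5 := tri_nonneg J x
  have h6 := tri_nonneg J y
  have h7 := abs_nonneg (tri J x - tri J y)
  calc (tri J x + tri J y) * |tri J x - tri J y| ≤ (2 * cc J) * |tri J x - tri J y| := by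
        nlinarith
    _ ≤ (2 * cc J) * (K * |x - y|) := by
        have := cc_nonneg J
        exact mul_le_mul_of_nonneg_left h2 (by linarith)
    _ = _ := by ring

end Pool.Agent.TH850.NR
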